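import Pool.Agent.H82.LD.E1
import Pool.Graph.R_seed8.H442R2.FX.Bf

/-!
Pairs of large moduli, several residues inside.
-/

set_option autoImplicit false

namespace Pool.Agent.H82.LD

open Finset
open Pool.Agent.H442R2.KF
open Pool.Agent.H442R2.KF.TaskM3 Pool.Agent.H442R2.KF.TaskTM3

lemma Eg_split (N D g : ℕ) (hg : 1 ≤ g) (a a' k : ℤ) (hk : a' - a = g * k) (J : ℕ) (c c' : ℕ → ℝ) :
    ((Eg N D g a a' c c' : ℝ) : ℂ) =
      ∑ y ∈ AA D g, (tc D c (g * y.1) : ℂ) * (tc D c' (g * y.2) : ℂ) *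
        ((SS N a a' (g * y.1) (g * y.2) : ℂ) - ∑ j ∈ Icc (-(J : ℤ)) J,
          TaskM3.trm N g a k j y) +
      ∑ j ∈ (Icc (-(J : ℤ)) J).erase 0,
        ∑ y ∈ AA D g, (tc D c (g * y.1) : ℂ) * (tc D c' (g * y.2) : ℂ) *
          TaskM3.trm N g a k j y := by
  have hgr : (0:ℝ) < g := by exact_mod_cast hg
  unfold Eg
  push_cast
  have e1 : ∀ y ∈ AA D g, (tc D c (g * y.1) : ℂ) * (tc D c' (g * y.2) : ℂ) *
      ((SS N a a' (g * y.1) (g * y.2) : ℂ) -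
        N * (Fh (a' - a) (Nat.gcd (g * y.1) (g * y.2)) : ℂ) / ((g * y.1) * (g * y.2))) =
      (tc D c (g * y.1) : ℂ) * (tc D c' (g * y.2) : ℂ) *
        ((SS N a a' (g * y.1) (g * y.2) : ℂ) - ∑ j ∈ Icc (-(J : ℤ)) J, TaskM3.trm N g a k j y) +
      ∑ j ∈ (Icc (-(J : ℤ)) J).erase 0,
        (tc D c (g * y.1) : ℂ) * (tc D c' (g * y.2) : ℂ) * TaskM3.trm N g a k j y := by
    intro y hy
    simp only [AA, mem_filter, mem_product, mem_Ioc] at hy
    have hgcd : Nat.gcd (g * y.1) (g * y.2) = g := by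
      rw [Nat.gcd_mul_left, Nat.Coprime.gcd_eq_one hy.2, mul_one]
    have hF : Fh (a' - a) (Nat.gcd (g * y.1) (g * y.2)) = g := by
      rw [hgcd]
      unfold Fh
      rw [if_pos ⟨k, hk⟩]
    have hy1 : (0:ℝ) < y.1 := by
      have : 0 < y.1 := by omega
      exact_mod_cast this
    have hy2 : (0:ℝ) < y.2 := by
      have : 0 < y.2 := by omega
      exact_mod_cast this
    have hmain : (N : ℂ) * (Fh (a' - a) (Nat.gcd (g * y.1) (g * y.2)) : ℂ) / ((g * y.1) * (g * y.2)) =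
        TaskM3.trm N g a k 0 y := by
      rw [trm_zero, hF]
      push_cast
      have h1 : (g : ℂ) ≠ 0 := by exact_mod_cast hgr.ne'
      have h2 : (y.1 : ℂ) ≠ 0 := by exact_mod_cast hy1.ne'
      have h3 : (y.2 : ℂ) ≠ 0 := by exact_mod_cast hy2.ne'
      field_simp
    have h0 : (0 : ℤ) ∈ Icc (-(J : ℤ)) J := by rw [mem_Icc]; omega
    rw [hmain, ← Finset.add_sum_erase _ _ h0, ← Finset.mul_sum]
    ring
  rw [Finset.sum_congr rfl e1, Finset.sum_add_distrib, Finset.sum_comm (s := AA D g)]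

lemma per_gA (N D g : ℕ) (hg : 1 ≤ g) (A : Finset ℕ) (a' : ℤ) (k : ℕ → ℤ)
    (hk : ∀ a ∈ A, a' - (a : ℤ) = g * k a) (J : ℕ) (c : ℕ → ℕ → ℝ) (c' : ℕ → ℝ)
    (hc : ∀ a d, |c a d| ≤ 1) (hc' : ∀ d, |c' d| ≤ 1) (δ B : ℝ) (hδ : 0 ≤ δ)
    (hS : ∀ a ∈ A, ∀ y ∈ AA D g, g * y.1 ∈ Ioc D (2 * D) → g * y.2 ∈ Ioc D (2 * D) →
      ‖((SS N a a' (g * y.1) (g * y.2) : ℝ) : ℂ) - ∑ j ∈ Icc (-(J : ℤ)) J,
        TaskM3.trm N g a (k a) j y‖ ≤ δ)
    (hB : ‖∑ a ∈ A, ∑ j ∈ (Icc (-(J : ℤ)) J).erase 0,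
      ∑ y ∈ AA D g, (tc D (c a) (g * y.1) : ℂ) * (tc D c' (g * y.2) : ℂ) *
        TaskM3.trm N g a (k a) j y‖ ≤ B) :
    |∑ a ∈ A, Eg N D g a a' (c a) c'| ≤ A.card * ((AA D g).card * δ) + B := by
  rw [← Real.norm_eq_abs, ← Complex.norm_real, Complex.ofReal_sum]
  have hsp : ∀ a ∈ A, ((Eg N D g a a' (c a) c' : ℝ) : ℂ) = _ := fun a ha =>
    Eg_split N D g hg a a' (k a) (hk a ha) J (c a) c'
  rw [Finset.sum_congr rfl hsp, Finset.sum_add_distrib]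
  refine (norm_add_le _ _).trans (add_le_add ?_ hB)
  refine (norm_sum_le _ _).trans ?_
  rw [← nsmul_eq_mul]
  apply Finset.sum_le_card_nsmul
  intro a ha
  refine (norm_sum_le _ _).trans ?_
  rw [← nsmul_eq_mul]
  apply Finset.sum_le_card_nsmul
  intro y hy
  by_cases h1 : g * y.1 ∈ Ioc D (2 * D)
  · by_cases h2 : g * y.2 ∈ Ioc D (2 * D)
    · rw [norm_mul, norm_mul, Complex.norm_real, Complex.norm_real, Real.norm_eq_abs,
        Real.norm_eq_abs]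
      have k1 := tc_le (D := D) (hc a) (g * y.1)
      have k2 := tc_le (D := D) hc' (g * y.2)
      have k3 := hS a ha y hy h1 h2
      calc |tc D (c a) (g * y.1)| * |tc D c' (g * y.2)| * _ ≤ 1 * 1 * δ := by
            apply mul_le_mul (mul_le_mul k1 k2 (abs_nonneg _) zero_le_one) k3 (norm_nonneg _)
            norm_num
        _ = δ := by ring
    · have : tc D c' (g * y.2) = 0 := if_neg h2
      rw [this]; simpa using hδ
  · have : tc D (c a) (g * y.1) = 0 := if_neg h1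
    rw [this]; simpa using hδ

lemma bound_gA (N : ℕ) (hN3 : 3 ≤ N) (D : ℕ) (P : ℕ → Prop) (X R : ℝ) (hX : 0 ≤ X) (hR1 : 1 ≤ R)
    (hEv : ∀ (a a' k : ℤ) (g d₁ d₂ : ℕ), 1 ≤ g → 1 ≤ d₁ →
      1 ≤ d₂ → Nat.Coprime d₁ d₂ → a' - a = g * k → (g * d₁ * d₂ : ℝ) ≤ (N : ℝ) ^ 3 →
      ∀ J : ℕ, (g * d₁ * d₂ : ℝ) * Real.log N ≤ (J + 1) * N →
      ‖((SS N a a' (g * d₁) (g * d₂) : ℝ) : ℂ) -
        ((N : ℝ) / (g * d₁ * d₂) : ℝ) * ∑ j ∈ Icc (-(J : ℤ)) J,
          ((Real.exp (-Real.pi * ((j : ℝ) * N / (g * d₁ * d₂)) ^ 2) : ℝ) : ℂ) *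
            e ((j : ℝ) * a / (g * d₁ * d₂)) * kf (j * k) d₁ d₂‖ ≤ 1 / (N : ℝ) ^ 5)
    (hD1 : 4 * (D : ℝ) * Real.log N < N) (hD2 : 4 * (D : ℝ) ^ 2 ≤ (N : ℝ) ^ 3)
    (g : ℕ) (hg : 1 ≤ g) (A : Finset ℕ) (hAR : (A.card : ℝ) ≤ R) (haN : ∀ a ∈ A, a ≤ N)
    (a' : ℤ) (ha' : 0 ≤ a') (ha'N : a' ≤ N) (haa : ∀ a ∈ A, (a : ℤ) ≠ a')
    (c : ℕ → ℕ → ℝ) (c' : ℕ → ℝ) (hc : ∀ a d, |c a d| ≤ 1) (hc' : ∀ d, |c' d| ≤ 1)
    (hP : ∀ a d, c a d ≠ 0 → P d)
    (hErr : g ≤ D → ∀ A' : Finset ℕ, (A'.card : ℝ) ≤ R → (∀ a ∈ A', a ≤ N) →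
      ∀ (k : ℕ → ℤ) (σ : ℤ), (σ = 1 ∨ σ = -1) → (∀ a ∈ A', k a ≠ 0) → Set.InjOn k A' →
      (∀ a ∈ A', |(g : ℝ) * k a| ≤ N) →
      ∀ (c : ℕ → ℕ → ℝ) (c' : ℕ → ℝ), (∀ a d, |c a d| ≤ 1) → (∀ d, |c' d| ≤ 1) →
      (∀ a d, c a d ≠ 0 → P d) →
      ‖∑ a ∈ A', ∑ j ∈ Icc 1 ⌊4 * (D : ℝ) ^ 2 * Real.log N / (g * N)⌋₊,
        ∑ d₁ ∈ Ioc (D / g) (2 * (D / g) + 1),
        ∑ d₂ ∈ (Ioc (D / g) (2 * (D / g) + 1)).filter (fun d₂ => Nat.Coprime d₁ d₂),
          TaskTM2.trm N g (a : ℤ) (k a) σ (c a) c' j d₁ d₂‖ ≤ X / g) :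
    |∑ a ∈ A, Eg N D g a a' (c a) c'| ≤ R * (((D : ℝ) + 1) ^ 2 * (1 / (N : ℝ) ^ 5)) +
      2 * X * (1 / g) := by
  have hNr : (3:ℝ) ≤ N := by exact_mod_cast hN3
  have hN0 : (0:ℝ) < N := by linarith
  have hgr : (1:ℝ) ≤ g := by exact_mod_cast hg
  have hg0 : (0:ℝ) < g := by linarith
  have hR0 : 0 < R := by linarith
  have hlog : 0 < Real.log N := Real.log_pos (by linarith)
  have hD0 : (0:ℝ) ≤ D := by positivity
  have hrhs1 : 0 ≤ ((D : ℝ) + 1) ^ 2 * (1 / (N : ℝ) ^ 5) := by positivity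
  have hrhs2 : 0 ≤ 2 * X * (1 / g) := by positivity
  -- restrict to the residues congruent to `a'`
  set A' := A.filter (fun a : ℕ => (g : ℤ) ∣ a' - (a : ℤ)) with hA'
  have hred : ∑ a ∈ A, Eg N D g a a' (c a) c' = ∑ a ∈ A', Eg N D g a a' (c a) c' := by
    rw [hA', Finset.sum_filter_of_ne]
    intro a _ h
    by_contra hdiv
    exact h (Eg_zero SS_not_dvd N D g a a' (c a) c' hdiv)
  rw [hred]
  have hA'A : A' ⊆ A := Finset.filter_subset _ _
  have hA'R : (A'.card : ℝ) ≤ R := by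
    refine le_trans ?_ hAR
    exact_mod_cast Finset.card_le_card hA'A
  set k : ℕ → ℤ := fun a => (a' - (a : ℤ)) / g with hkdef
  have hgz : (g : ℤ) ≠ 0 := by
    have : g ≠ 0 := by omega
    exact_mod_cast this
  have hk : ∀ a ∈ A', a' - (a : ℤ) = g * k a := by
    intro a ha
    rw [hA', Finset.mem_filter] at ha
    exact (Int.mul_ediv_cancel' ha.2).symm
  have hk0 : ∀ a ∈ A', k a ≠ 0 := by
    intro a ha h0
    have h1 := hk a ha
    rw [h0, mul_zero] at h1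
    exact haa a (hA'A ha) (by linarith)
  have hinj : Set.InjOn k A' := by
    intro a ha b hb h
    have h1 := hk a ha
    have h2 := hk b hb
    have h3 : k a = k b := h
    rw [h3, ← h2] at h1
    have : (a : ℤ) = b := by linarith
    exact_mod_cast this
  have hkN : ∀ a ∈ A', |(g : ℝ) * k a| ≤ N := by
    intro a ha
    have h1 : ((g : ℝ) * k a) = ((a' - (a : ℤ) : ℤ) : ℝ) := by rw [hk a ha]; push_cast; ring
    rw [h1]
    have h0 := haN a (hA'A ha)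
    have h2 : |a' - (a : ℤ)| ≤ (N : ℤ) := by rw [abs_le]; omega
    have h3 : |((a' - (a : ℤ) : ℤ) : ℝ)| = ((|a' - (a : ℤ)| : ℤ) : ℝ) := by push_cast; rfl
    rw [h3]
    exact_mod_cast h2
  set J : ℕ := ⌊4 * (D : ℝ) ^ 2 * Real.log N / (g * N)⌋₊ with hJ
  have hJle : (J : ℝ) ≤ 4 * (D : ℝ) ^ 2 * Real.log N / (g * N) :=
    Nat.floor_le (by positivity)
  have hJlt : 4 * (D : ℝ) ^ 2 * Real.log N / (g * N) < J + 1 := Nat.lt_floor_add_one _
  have hsz : ∀ y ∈ AA D g, g * y.1 ∈ Ioc D (2 * D) → g * y.2 ∈ Ioc D (2 * D) →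
      (g * y.1 * y.2 : ℝ) * g ≤ 4 * (D : ℝ) ^ 2 := by
    intro y _ h1 h2
    rw [mem_Ioc] at h1 h2
    have k1 : ((g : ℝ) * y.1) ≤ 2 * D := by exact_mod_cast h1.2
    have k2 : ((g : ℝ) * y.2) ≤ 2 * D := by exact_mod_cast h2.2
    have k3 : (0:ℝ) ≤ (g : ℝ) * y.2 := by positivity
    calc (g * y.1 * y.2 : ℝ) * g = ((g : ℝ) * y.1) * ((g : ℝ) * y.2) := by ring
      _ ≤ (2 * D) * (2 * D) := mul_le_mul k1 k2 k3 (by positivity)
      _ = 4 * (D : ℝ) ^ 2 := by ring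
  have hS : ∀ a ∈ A', ∀ y ∈ AA D g, g * y.1 ∈ Ioc D (2 * D) → g * y.2 ∈ Ioc D (2 * D) →
      ‖((SS N a a' (g * y.1) (g * y.2) : ℝ) : ℂ) - ∑ j ∈ Icc (-(J : ℤ)) J,
        TaskM3.trm N g a (k a) j y‖ ≤ 1 / (N : ℝ) ^ 5 := by
    intro a ha y hy h1 h2
    have hs := hsz y hy h1 h2
    simp only [AA, mem_filter, mem_product, mem_Ioc] at hy
    have hs0 : (0:ℝ) ≤ (g * y.1 * y.2 : ℝ) := by positivity
    have h3 := hEv a a' (k a) g y.1 y.2 hg (by omega) (by omega) hy.2 (hk a ha)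
      (by
        have : (g * y.1 * y.2 : ℝ) ≤ (g * y.1 * y.2 : ℝ) * g := le_mul_of_one_le_right hs0 hgr
        linarith) J
      (by
        rw [div_lt_iff₀ (by positivity)] at hJlt
        have h4 : (g * y.1 * y.2 : ℝ) * Real.log N * g ≤ (J + 1) * N * g := by
          calc (g * y.1 * y.2 : ℝ) * Real.log N * g = ((g * y.1 * y.2 : ℝ) * g) * Real.log N := by
                ring
            _ ≤ (4 * (D : ℝ) ^ 2) * Real.log N := mul_le_mul_of_nonneg_right hs hlog.le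
            _ ≤ (J + 1) * (g * N) := hJlt.le
            _ = (J + 1) * N * g := by ring
        exact le_of_mul_le_mul_right h4 hg0)
    rw [Finset.mul_sum] at h3
    have h5 : ∑ j ∈ Icc (-(J : ℤ)) J, TaskM3.trm N g a (k a) j y =
        ∑ j ∈ Icc (-(J : ℤ)) J, ((N : ℝ) / (g * y.1 * y.2) : ℝ) *
          (((Real.exp (-Real.pi * ((j : ℝ) * N / (g * y.1 * y.2)) ^ 2) : ℝ) : ℂ) *
          e ((j : ℝ) * (a : ℤ) / (g * y.1 * y.2)) * kf (j * k a) y.1 y.2) := by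
      apply Finset.sum_congr rfl
      intro j _
      unfold TaskM3.trm
      ring
    rw [h5]
    exact h3
  have hcard : (A'.card : ℝ) * ((AA D g).card * (1 / (N : ℝ) ^ 5)) ≤
      R * (((D : ℝ) + 1) ^ 2 * (1 / (N : ℝ) ^ 5)) := by
    apply mul_le_mul hA'R _ (by positivity) hR0.le
    exact mul_le_mul_of_nonneg_right (card_AA D g) (by positivity)
  by_cases hgD : g ≤ D
  · -- the bound of all frequencies
    have hhalf : ∀ σ : ℤ, (σ = 1 ∨ σ = -1) →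
        ‖∑ a ∈ A', ∑ j ∈ Icc 1 J, ∑ y ∈ AA D g,
          (tc D (c a) (g * y.1) : ℂ) * (tc D c' (g * y.2) : ℂ) *
          TaskM3.trm N g a (k a) (σ * (j : ℤ)) y‖ ≤ X / g := by
      intro σ hσ
      have h1 := hErr hgD A' hA'R (fun a ha => haN a (hA'A ha)) k σ hσ hk0 hinj hkN
        (fun a => tc D (c a)) (tc D c') (fun a => tc_le (hc a)) (tc_le hc')
        (by
          intro a d hd
          apply hP a
          intro h0
          apply hd
          show tc D (c a) d = 0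
          unfold tc
          split_ifs
          · exact h0
          · rfl)
      refine le_trans (le_of_eq ?_) h1
      congr 1
      apply Finset.sum_congr rfl
      intro a _
      apply Finset.sum_congr rfl
      intro j _
      rw [sum_AA D g (fun d₁ d₂ => TaskTM2.trm N g (a : ℤ) (k a) σ (tc D (c a)) (tc D c') j d₁ d₂)]
      apply Finset.sum_congr rfl
      intro y _
      unfold TaskTM2.trm
      rw [trm_sigma N g a (k a) σ hσ j y]
      ring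
    have hB : ‖∑ a ∈ A', ∑ j ∈ (Icc (-(J : ℤ)) J).erase 0,
        ∑ y ∈ AA D g, (tc D (c a) (g * y.1) : ℂ) * (tc D c' (g * y.2) : ℂ) *
          TaskM3.trm N g a (k a) j y‖ ≤ 2 * (X / g) := by
      rw [Finset.sum_congr rfl (fun a _ => split_J J (fun j => ∑ y ∈ AA D g,
        (tc D (c a) (g * y.1) : ℂ) * (tc D c' (g * y.2) : ℂ) *
        TaskM3.trm N g a (k a) j y)), Finset.sum_add_distrib]
      refine (norm_add_le _ _).trans ?_
      have h1 := hhalf 1 (Or.inl rfl)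
      have h2 := hhalf (-1) (Or.inr rfl)
      linarith
    have h1 := per_gA N D g hg A' a' k hk J c c' hc hc' (1 / (N : ℝ) ^ 5) _ (by positivity) hS hB
    refine h1.trans (add_le_add hcard (le_of_eq ?_))
    ring
  · -- no frequencies
    have hJ0 : J = 0 := by
      rw [hJ, Nat.floor_eq_zero, div_lt_one (by positivity)]
      have h1 : (D : ℝ) ≤ g := by
        have : D ≤ g := by omega
        exact_mod_cast this
      calc 4 * (D : ℝ) ^ 2 * Real.log N = D * (4 * (D : ℝ) * Real.log N) := by ring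
        _ ≤ g * (4 * (D : ℝ) * Real.log N) := mul_le_mul_of_nonneg_right h1 (by positivity)
        _ < g * N := mul_lt_mul_of_pos_left hD1 hg0
    have h1 := per_gA N D g hg A' a' k hk J c c' hc hc' (1 / (N : ℝ) ^ 5) 0 (by positivity) hS
      (by
        rw [hJ0]
        simp)
    refine h1.trans ?_
    rw [add_zero]
    linarith

/-- pairs of large moduli, several residues inside -/
theorem BG (θ lo δ : ℝ) (hhalf : 1 / 2 ≤ θ) (hθ : θ ≤ 3 / 5) (hδ : 0 < δ) :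
    ∃ (η C : ℝ), 0 < η ∧ 0 < C ∧
    ∀ (N D : ℕ), 2 ≤ N → (D : ℝ) ≤ (N : ℝ) ^ θ →
    ∀ (A : Finset ℕ) (R : ℝ), 1 ≤ R → (A.card : ℝ) ≤ R → (N : ℝ) ^ (2 * θ - 1 - lo + δ) ≤ R →
    (∀ a ∈ A, a ≤ N) → ∀ (a' : ℤ), 0 ≤ a' → a' ≤ N → (∀ a ∈ A, (a : ℤ) ≠ a') →
    ∀ (c : ℕ → ℕ → ℝ) (c' : ℕ → ℝ), (∀ a d, |c a d| ≤ 1) → (∀ d, |c' d| ≤ 1) →
    (∀ a d, c a d ≠ 0 → FacG N lo (4 - 7 * θ - δ) d) →
    |∑ a ∈ A, ∑ d ∈ Ioc D (2 * D), ∑ d' ∈ Ioc D (2 * D), c a d * c' d' *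
      (SS N a a' d d' - N * Fh (a' - a) (Nat.gcd d d') / (d * d'))| ≤
      C * R * (N : ℝ) ^ (1 - η) := by
  have hθ0 : 0 < θ := by linarith
  obtain ⟨η1, C1, hη1, hC1, hErr⟩ := EG θ lo δ hhalf (by linarith) hδ
  obtain ⟨η, hη⟩ : ∃ η : ℝ, η = min η1 1 / 2 := ⟨_, rfl⟩
  have hmin : 0 < min η1 1 := lt_min hη1 one_pos
  have hη0 : 0 < η := by rw [hη]; linarith
  have hηlt : η < 1 := by
    have := min_le_right η1 1
    rw [hη]; linarith
  have hη2 : 2 * η ≤ η1 := by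
    have := min_le_left η1 1
    rw [hη]; linarith
  obtain ⟨N1, hN1⟩ := SS_eval
  set N0 : ℕ := max N1 (20 ^ 5 + 1) with hN0
  set C2 : ℝ := ∑ N ∈ range N0, ((N : ℝ) ^ 2 * ((∑' n : ℤ, Wt N n) + N)) with hC2
  have hC2t : ∀ N : ℕ, 0 ≤ (N : ℝ) ^ 2 * ((∑' n : ℤ, Wt N n) + N) := by
    intro N
    have hS0 : 0 ≤ ∑' n : ℤ, Wt N n := tsum_nonneg (fun n => (Real.exp_pos _).le)
    positivity
  have hC20 : 0 ≤ C2 := Finset.sum_nonneg (fun N _ => hC2t N)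
  refine ⟨η, C2 + 8 + 6 * C1 * (1 / η), hη0, by positivity, ?_⟩
  intro N D hN hDN A R hR1 hAR hRN haN a' ha' ha'N haa c c' hc hc' hP
  have hR0 : 0 < R := by linarith
  have hN1r : (1:ℝ) ≤ N := by
    have : 1 ≤ N := by omega
    exact_mod_cast this
  have hNpos : (0:ℝ) < N := by linarith
  have hpow1 : (1:ℝ) ≤ (N : ℝ) ^ (1 - η) := Real.one_le_rpow hN1r (by linarith)
  have hDleN : (D : ℝ) ≤ N := by
    refine hDN.trans ?_
    calc (N : ℝ) ^ θ ≤ (N : ℝ) ^ (1:ℝ) := Real.rpow_le_rpow_of_exponent_le hN1r (by linarith)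
      _ = N := Real.rpow_one _
  have hDleN' : D ≤ N := by exact_mod_cast hDleN
  have hK0 : 0 ≤ 6 * C1 * (1 / η) := by positivity
  by_cases hlarge : N < N0
  · have h1 : (N : ℝ) ^ 2 * ((∑' n : ℤ, Wt N n) + N) ≤ C2 :=
      Finset.single_le_sum (f := fun N : ℕ => (N : ℝ) ^ 2 * ((∑' n : ℤ, Wt N n) + N))
        (fun N _ => hC2t N) (Finset.mem_range.mpr hlarge)
    have h2 : |∑ a ∈ A, ∑ d ∈ Ioc D (2 * D), ∑ d' ∈ Ioc D (2 * D), c a d * c' d' *
        (SS N a a' d d' - N * Fh (a' - a) (Nat.gcd d d') / (d * d'))| ≤ A.card * C2 := by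
      refine (Finset.abs_sum_le_sum_abs _ _).trans ?_
      rw [← nsmul_eq_mul]
      apply Finset.sum_le_card_nsmul
      intro a _
      exact (trivial_bound N D (by omega) hDleN' a a' (c a) c' (hc a) hc').trans h1
    refine h2.trans ?_
    calc (A.card : ℝ) * C2 ≤ R * C2 := mul_le_mul_of_nonneg_right hAR hC20
      _ = C2 * R * 1 := by ring
      _ ≤ (C2 + 8 + 6 * C1 * (1 / η)) * R * (N : ℝ) ^ (1 - η) := by
        apply mul_le_mul _ hpow1 zero_le_one (by positivity)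
        apply mul_le_mul_of_nonneg_right _ hR0.le
        linarith
  · push Not at hlarge
    have hNN1 : N1 ≤ N := (le_max_left _ _).trans hlarge
    have hN16 : 20 ^ 5 + 1 ≤ N := (le_max_right _ _).trans hlarge
    have hN3 : 3 ≤ N := by omega
    have h16 : (20:ℝ) < (N : ℝ) ^ (1 / 5 : ℝ) := by
      have h1 : ((20:ℝ) ^ (5:ℕ)) < N := by
        have : 20 ^ 5 < N := by omega
        exact_mod_cast this
      calc (20:ℝ) = ((20:ℝ) ^ (5:ℕ)) ^ (1 / 5 : ℝ) := by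
            rw [← Real.rpow_natCast, ← Real.rpow_mul (by norm_num)]
            norm_num
        _ < (N : ℝ) ^ (1 / 5 : ℝ) := Real.rpow_lt_rpow (by positivity) h1 (by norm_num)
    have hlog0 : 0 < Real.log N := Real.log_pos (by
      have : (3:ℝ) ≤ N := by exact_mod_cast hN3
      linarith)
    have hD1 : 4 * (D : ℝ) * Real.log N < N := by
      have h1 : Real.log N ≤ (N : ℝ) ^ (1 / 5 : ℝ) / (1 / 5) :=
        Real.log_le_rpow_div hNpos.le (by norm_num)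
      have h2 : 0 < (N : ℝ) ^ θ := Real.rpow_pos_of_pos hNpos _
      have h3 : 0 < (N : ℝ) ^ (1 / 5 : ℝ) := Real.rpow_pos_of_pos hNpos _
      calc 4 * (D : ℝ) * Real.log N ≤ 4 * (N : ℝ) ^ θ * ((N : ℝ) ^ (1 / 5 : ℝ) / (1 / 5)) := by
            apply mul_le_mul _ h1 hlog0.le (by positivity)
            linarith
        _ = 20 * ((N : ℝ) ^ θ * (N : ℝ) ^ (1 / 5 : ℝ)) := by ring
        _ < (N : ℝ) ^ (1 / 5 : ℝ) * ((N : ℝ) ^ θ * (N : ℝ) ^ (1 / 5 : ℝ)) :=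
            mul_lt_mul_of_pos_right h16 (by positivity)
        _ = (N : ℝ) ^ (1 / 5 + (θ + 1 / 5) : ℝ) := by
            rw [← Real.rpow_add hNpos, ← Real.rpow_add hNpos]
        _ ≤ (N : ℝ) ^ (1:ℝ) := Real.rpow_le_rpow_of_exponent_le hN1r (by linarith)
        _ = N := Real.rpow_one _
    have hD2 : 4 * (D : ℝ) ^ 2 ≤ (N : ℝ) ^ 3 := by
      have h4 : (4:ℝ) ≤ N := by
        have : 4 ≤ N := by omega
        exact_mod_cast this
      have h5 : (D : ℝ) ^ 2 ≤ (N : ℝ) ^ 2 := pow_le_pow_left₀ (by positivity) hDleN 2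
      calc 4 * (D : ℝ) ^ 2 ≤ N * (N : ℝ) ^ 2 := mul_le_mul h4 h5 (by positivity) hNpos.le
        _ = (N : ℝ) ^ 3 := by ring
    have hmain : ∑ a ∈ A, ∑ d ∈ Ioc D (2 * D), ∑ d' ∈ Ioc D (2 * D), c a d * c' d' *
        (SS N a a' d d' - N * Fh (a' - a) (Nat.gcd d d') / (d * d')) =
        ∑ g ∈ Icc 1 (2 * D), ∑ a ∈ A, Eg N D g a a' (c a) c' := by
      rw [Finset.sum_comm (s := Icc 1 (2 * D))]
      refine Finset.sum_congr rfl fun a _ => ?_
      have h1 : ∑ d ∈ Ioc D (2 * D), ∑ d' ∈ Ioc D (2 * D), c a d * c' d' *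
          (SS N a a' d d' - N * Fh (a' - a) (Nat.gcd d d') / (d * d')) =
          ∑ d ∈ Ioc D (2 * D), ∑ d' ∈ Ioc D (2 * D), tc D (c a) d * tc D c' d' *
          (SS N a a' d d' - N * Fh (a' - a) (Nat.gcd d d') / ((d : ℝ) * (d' : ℝ))) := by
        apply Finset.sum_congr rfl
        intro d hd
        apply Finset.sum_congr rfl
        intro d' hd'
        unfold tc
        rw [if_pos hd, if_pos hd']
      rw [h1]
      rw [group D (fun d d' => tc D (c a) d * tc D c' d' *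
          (SS N a a' d d' - N * Fh (a' - a) (Nat.gcd d d') / ((d : ℝ) * (d' : ℝ)))) ?_]
      · rfl
      · intro d d' h
        unfold tc
        rcases h with h | h
        · rw [if_neg h]; ring
        · rw [if_neg h]; ring
    rw [hmain]
    have hX : 0 ≤ C1 * R * (N : ℝ) ^ (1 - η1) := by
      have := Real.rpow_nonneg hNpos.le (1 - η1)
      positivity
    have hb := fun g (hg : g ∈ Icc 1 (2 * D)) => bound_gA N hN3 D
      (FacG N lo (4 - 7 * θ - δ)) (C1 * R * (N : ℝ) ^ (1 - η1)) R hX hR1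
      (hN1 N hNN1) hD1 hD2 g (Finset.mem_Icc.mp hg).1 A hAR haN a' ha' ha'N haa c c' hc hc' hP
      (fun hgD A' hA'R hA'N k σ hσ hk hinj hgk c c' hc hc' hP =>
        hErr N D g hN3 hDN (Finset.mem_Icc.mp hg).1 hgD A' R hR1 hA'R hRN hA'N k σ hσ hk hinj hgk
          c c' hc hc' hP)
    refine (Finset.abs_sum_le_sum_abs _ _).trans ((Finset.sum_le_sum hb).trans ?_)
    rw [Finset.sum_add_distrib, Finset.sum_const, ← Finset.mul_sum, Nat.card_Icc, nsmul_eq_mul]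
    have hfirst : ((2 * D + 1 - 1 : ℕ) : ℝ) * (R * (((D : ℝ) + 1) ^ 2 * (1 / (N : ℝ) ^ 5))) ≤
        8 * R := by
      have h1 : ((2 * D + 1 - 1 : ℕ) : ℝ) = 2 * D := by
        rw [Nat.add_sub_cancel]; push_cast; ring
      rw [h1]
      have h2 : (D : ℝ) + 1 ≤ 2 * N := by linarith
      have h3 : ((D : ℝ) + 1) ^ 2 ≤ (2 * N) ^ 2 := pow_le_pow_left₀ (by positivity) h2 2
      have h4 : 2 * (D : ℝ) * (((D : ℝ) + 1) ^ 2 * (1 / (N : ℝ) ^ 5)) ≤
          2 * N * ((2 * N) ^ 2 * (1 / (N : ℝ) ^ 5)) := by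
        apply mul_le_mul (by linarith) _ (by positivity) (by positivity)
        exact mul_le_mul_of_nonneg_right h3 (by positivity)
      have h5 : 2 * (N : ℝ) * ((2 * N) ^ 2 * (1 / (N : ℝ) ^ 5)) = 8 * (1 / (N : ℝ) ^ 2) := by
        field_simp
        ring
      have h6 : 1 / (N : ℝ) ^ 2 ≤ 1 := by
        rw [div_le_one (by positivity)]
        exact one_le_pow₀ hN1r
      calc 2 * (D : ℝ) * (R * (((D : ℝ) + 1) ^ 2 * (1 / (N : ℝ) ^ 5))) =
            R * (2 * (D : ℝ) * (((D : ℝ) + 1) ^ 2 * (1 / (N : ℝ) ^ 5))) := by ring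
        _ ≤ R * (2 * N * ((2 * N) ^ 2 * (1 / (N : ℝ) ^ 5))) :=
            mul_le_mul_of_nonneg_left h4 hR0.le
        _ = R * (8 * (1 / (N : ℝ) ^ 2)) := by rw [h5]
        _ ≤ R * (8 * 1) := by gcongr
        _ = _ := by ring
    have hlogN : 1 ≤ Real.log N := by
      rw [Real.le_log_iff_exp_le hNpos]
      have h1 := Real.exp_one_lt_d9
      have h2 : (3:ℝ) ≤ N := by exact_mod_cast hN3
      linarith
    have hsum : ∑ g ∈ Icc 1 (2 * D), (1 / (g : ℝ)) ≤ 3 * Real.log N := by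
      refine (sum_inv (2 * D)).trans ?_
      by_cases hD0 : D = 0
      · subst hD0
        simp
        linarith
      · have hDpos : (0:ℝ) < D := by
          have : 0 < D := Nat.pos_of_ne_zero hD0
          exact_mod_cast this
        have h1 : Real.log ((2 * D : ℕ) : ℝ) ≤ 2 * Real.log N := by
          have h2 : Real.log ((2 * D : ℕ) : ℝ) ≤ Real.log ((N : ℝ) ^ 2) := by
            apply Real.log_le_log (by push_cast; positivity)
            push_cast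
            have h3 : (2:ℝ) ≤ N := by exact_mod_cast hN
            nlinarith
          rw [Real.log_pow] at h2
          exact_mod_cast h2
        linarith
    have hlog1 : Real.log N ≤ (1 / η) * (N : ℝ) ^ η := by
      have h1 : Real.log N ≤ (N : ℝ) ^ η / η := Real.log_le_rpow_div hNpos.le hη0
      refine h1.trans (le_of_eq ?_)
      ring
    have hpw : (N : ℝ) ^ (1 - η1) ≤ (N : ℝ) ^ (1 - 2 * η) :=
      Real.rpow_le_rpow_of_exponent_le hN1r (by linarith)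
    have hpw0 : 0 ≤ (N : ℝ) ^ (1 - η1) := Real.rpow_nonneg hNpos.le _
    have hpw1 : 0 ≤ (N : ℝ) ^ (1 - 2 * η) := Real.rpow_nonneg hNpos.le _
    have hsecond : 2 * (C1 * R * (N : ℝ) ^ (1 - η1)) *
        ∑ g ∈ Icc 1 (2 * D), (1 / (g : ℝ)) ≤ 6 * C1 * (1 / η) * R * (N : ℝ) ^ (1 - η) := by
      calc 2 * (C1 * R * (N : ℝ) ^ (1 - η1)) * ∑ g ∈ Icc 1 (2 * D), (1 / (g : ℝ)) ≤
          2 * (C1 * R * (N : ℝ) ^ (1 - 2 * η)) * (3 * Real.log N) := by
            apply mul_le_mul _ hsum (Finset.sum_nonneg (fun g _ => by positivity)) (by positivity)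
            gcongr
        _ = 6 * C1 * R * (N : ℝ) ^ (1 - 2 * η) * Real.log N := by ring
        _ ≤ 6 * C1 * R * (N : ℝ) ^ (1 - 2 * η) * ((1 / η) * (N : ℝ) ^ η) :=
            mul_le_mul_of_nonneg_left hlog1 (by positivity)
        _ = 6 * C1 * (1 / η) * R * ((N : ℝ) ^ (1 - 2 * η) * (N : ℝ) ^ η) := by ring
        _ = 6 * C1 * (1 / η) * R * (N : ℝ) ^ (1 - η) := by
            rw [← Real.rpow_add hNpos]
            congr 2
            ring
    have h8 : 8 * R ≤ 8 * R * (N : ℝ) ^ (1 - η) := le_mul_of_one_le_right (by positivity) hpow1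
    have h9 : 0 ≤ C2 * R * (N : ℝ) ^ (1 - η) := by positivity
    calc _ ≤ 8 * R + 6 * C1 * (1 / η) * R * (N : ℝ) ^ (1 - η) := add_le_add hfirst hsecond
      _ ≤ (C2 + 8 + 6 * C1 * (1 / η)) * R * (N : ℝ) ^ (1 - η) := by linarith

end Pool.Agent.H82.LD
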