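import Pool.Agent.H82.LD.C1
import Pool.Graph.R_seed8.W109.C.G6

/-!
Duality and one dyadic block, several residues inside.
-/

set_option autoImplicit false

namespace Pool.Agent.H82.LD

open Finset
open Pool.Agent.H442R2.KF
open Pool.Agent.W109.C

/-- duality, with the off-diagonal terms bounded in total -/
theorem dualT (N : ℕ) (hN : 1 ≤ N) (A : Finset ℕ) (r : ℕ → ℤ → ℝ)
    (hs : ∀ a ∈ A, ∀ a' ∈ A, Summable (fun n : ℤ => Wt N n * (r a n * r a' n)))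
    (G : ℕ → ℝ) (O : ℝ) (hG : ∀ a ∈ A, ∑' n : ℤ, Wt N n * (r a n * r a n) ≤ G a)
    (hO : ∀ a' ∈ A, ∑ a ∈ A.erase a', ∑' n : ℤ, Wt N n * (r a n * r a' n) ≤ O) :
    (∑ a ∈ A, ∑ p ∈ (Icc 1 N).filter Nat.Prime, r a p) ^ 2 ≤
      25 * N * (∑ a ∈ A, G a + (A.card : ℝ) * O) := by
  classical
  set S := (Icc 1 N).filter Nat.Prime with hS
  have hcard : (S.card : ℝ) ≤ N := by
    have h1 : S.card ≤ (Icc 1 N).card := card_filter_le _ _
    rw [Nat.card_Icc] at h1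
    exact_mod_cast (by omega : S.card ≤ N)
  set F : ℤ → ℝ := fun n => ∑ a ∈ A, r a n with hF
  have hswap : ∑ a ∈ A, ∑ p ∈ S, r a p = ∑ p ∈ S, F p := by
    rw [sum_comm]
  have hexp : ∀ n : ℤ, Wt N n * F n ^ 2 = ∑ a ∈ A, ∑ a' ∈ A, Wt N n * (r a n * r a' n) := by
    intro n
    rw [hF, sq, sum_mul_sum, mul_sum]
    refine sum_congr rfl fun a _ => ?_
    rw [mul_sum]
  have hsumm : Summable (fun n : ℤ => Wt N n * F n ^ 2) := by
    have : (fun n : ℤ => Wt N n * F n ^ 2) =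
        fun n => ∑ a ∈ A, ∑ a' ∈ A, Wt N n * (r a n * r a' n) := funext hexp
    rw [this]
    exact summable_sum fun a ha => summable_sum fun a' ha' => hs a ha a' ha'
  have htsum : ∑' n : ℤ, Wt N n * F n ^ 2 =
      ∑ a ∈ A, ∑ a' ∈ A, ∑' n : ℤ, Wt N n * (r a n * r a' n) := by
    rw [tsum_congr hexp, Summable.tsum_finsetSum
      (fun a ha => summable_sum fun a' ha' => hs a ha a' ha')]
    refine sum_congr rfl fun a ha => ?_
    rw [Summable.tsum_finsetSum (fun a' ha' => hs a ha a' ha')]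
  have hbound : ∑' n : ℤ, Wt N n * F n ^ 2 ≤ ∑ a ∈ A, G a + (A.card : ℝ) * O := by
    rw [htsum, sum_comm]
    calc ∑ a' ∈ A, ∑ a ∈ A, ∑' n : ℤ, Wt N n * (r a n * r a' n)
        ≤ ∑ a' ∈ A, (G a' + O) := by
          refine sum_le_sum fun a' ha' => ?_
          rw [← add_sum_erase A (fun a => ∑' n : ℤ, Wt N n * (r a n * r a' n)) ha']
          exact add_le_add (hG a' ha') (hO a' ha')
      _ = ∑ a ∈ A, G a + (A.card : ℝ) * O := by
          rw [sum_add_distrib, sum_const, nsmul_eq_mul]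
  have hfin : ∑ p ∈ S, Wt N (p : ℤ) * F p ^ 2 ≤ ∑' n : ℤ, Wt N n * F n ^ 2 := by
    have h1 : ∑ p ∈ S, Wt N (p : ℤ) * F p ^ 2 =
        ∑ n ∈ S.map ⟨fun p : ℕ => (p : ℤ), Nat.cast_injective⟩, Wt N n * F n ^ 2 := by
      rw [sum_map]; rfl
    rw [h1]
    exact hsumm.sum_le_tsum _ fun n _ => mul_nonneg (TaskR1.Wt_nonneg N n) (sq_nonneg _)
  have hsq : ∑ p ∈ S, F p ^ 2 ≤ 25 * ∑ p ∈ S, Wt N (p : ℤ) * F p ^ 2 := by
    rw [mul_sum]
    refine sum_le_sum fun p hp => ?_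
    have hpN : p ≤ N := (mem_Icc.1 (mem_filter.1 hp).1).2
    have := TaskR1.one_le_Wt N hN p hpN
    nlinarith [sq_nonneg (F p)]
  have hN0 : (0 : ℝ) ≤ N := Nat.cast_nonneg _
  rw [hswap]
  calc (∑ p ∈ S, F p) ^ 2 ≤ S.card * ∑ p ∈ S, F p ^ 2 := sq_sum_le_card_mul_sum_sq
    _ ≤ N * ∑ p ∈ S, F p ^ 2 := by
        have : 0 ≤ ∑ p ∈ S, F (p : ℤ) ^ 2 := sum_nonneg fun p _ => sq_nonneg _
        gcongr
    _ ≤ N * (25 * (∑ a ∈ A, G a + (A.card : ℝ) * O)) := by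
        gcongr
        linarith
    _ = 25 * N * (∑ a ∈ A, G a + (A.card : ℝ) * O) := by ring

/-- the correlation bound, summed over one of the two residues -/
def HCorrA (θ ρ : ℝ) (P : ℕ → ℕ → Prop) : Prop := ∃ (η C : ℝ), 0 < η ∧ 0 < C ∧
    ∀ (N D : ℕ), 2 ≤ N → QN N ≤ D → (D : ℝ) ≤ (N : ℝ) ^ θ →
    ∀ (A : Finset ℕ) (R : ℝ), 1 ≤ R → (A.card : ℝ) ≤ R → (N : ℝ) ^ ρ ≤ R →
    (∀ a ∈ A, a ≤ N) → ∀ a' : ℕ, a' ≤ N → a' ∉ A →
    ∀ (c : ℕ → ℕ → ℝ) (c' : ℕ → ℝ), (∀ a ∈ A, Cof D (c a)) → Cof D c' →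
    (∀ a ∈ A, ∀ d, c a d ≠ 0 → P N d) → (∀ d, c' d ≠ 0 → P N d) →
    |∑ a ∈ A, ∑' n : ℤ, Wt N n * (rr (uu (c a) (2 * D) (QN N)) (2 * D) a n *
      rr (uu c' (2 * D) (QN N)) (2 * D) a' n)| ≤ C * R * (N : ℝ) ^ (1 - η)

/-- one dyadic block -/
theorem block_A (θ ρ : ℝ) (hθ : θ < 3 / 4) (P : ℕ → ℕ → Prop) (hPc : HCorrA θ ρ P) :
    ∃ η : ℝ, 0 < η ∧ ∀ (t U : ℕ), ∃ C : ℝ, 0 < C ∧
    ∀ (N D : ℕ), 3 ≤ N → QN N ≤ D → (D : ℝ) ≤ (N : ℝ) ^ θ →
    ∀ A : Finset ℕ, A ⊆ Icc 1 N → ∀ R : ℝ, 1 ≤ R → (A.card : ℝ) ≤ R → (N : ℝ) ^ ρ ≤ R →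
    ∀ T : ℕ → Finset ℕ, (∀ a ∈ A, T a ⊆ Ioc D (2 * D)) → (∀ a ∈ A, ∀ e ∈ T a, P N e) →
    (∀ a ∈ A, ∀ e ∈ T a, Nat.Coprime a e ∧ tau e ≤ Real.log N ^ t ∧
      (∀ d, d ∣ e → d ≤ QN N → d * |Er N d a| ≤ N / Real.log N ^ (U + 2 * t + 1)) ∧
      N / (D * Real.log N ^ U) ≤ |Er N e a|) →
    ∑ a ∈ A, (((T a).card : ℝ) / D) ≤
      C * (Real.log N ^ (2 * U + 4 * t + 1) + R * (N : ℝ) ^ (-η)) := by
  obtain ⟨η₀, CO, hη₀, hCO, hcorr⟩ := hPc
  obtain ⟨CP, hCP, hprime⟩ := prime_sp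
  refine ⟨η₀ / 4, by positivity, fun t U => ?_⟩
  -- thresholds
  obtain ⟨N0, hN0⟩ := Filter.eventually_atTop.mp
    ((ev_log (2 * t + U) 16 (1 / 4) (by norm_num)).and
      (((Real.tendsto_log_atTop.comp (tendsto_natCast_atTop_atTop (R := ℝ))).eventually_ge_atTop
        (8 : ℝ)).and
      ((ev_log (2 * t + U) (16 * CP) (3 / 400) (by norm_num)).and
        (ev_log (2 * U) (100 * CO) (η₀ / 2) (by positivity)))))
  have hC00 := C0_nonneg
  refine ⟨1200 * C0 + 1 + N0, by positivity, ?_⟩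
  intro N D hN3 hQD hDθ A hA R hR1 hAR hRN T hTD hTP hT
  have hR0 : 0 < R := by linarith
  have hl := TaskR2b.one_le_log hN3
  have hl0 : 0 < Real.log N := by linarith
  have hN1 : 1 ≤ N := by omega
  have hNr : (3 : ℝ) ≤ N := by exact_mod_cast hN3
  have hNr1 : (1 : ℝ) ≤ N := by linarith
  have hNr0 : (0 : ℝ) < N := by linarith
  have hY0 : 0 < R * (N : ℝ) ^ (-(η₀ / 4)) := by positivity
  obtain ⟨q1, q2, q3⟩ := TaskO.QN_facts N (by omega)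
  obtain ⟨Q, hQ⟩ : ∃ Q : ℕ, Q = QN N := ⟨_, rfl⟩
  rw [← hQ] at q1 q2 q3 hQD hT
  have hQr : (1 : ℝ) ≤ Q := by exact_mod_cast q1
  have hQ0 : (0 : ℝ) < Q := by linarith
  have hD1 : 1 ≤ D := q1.trans hQD
  have hD0 : (0 : ℝ) < D := by exact_mod_cast hD1
  obtain ⟨L, hL⟩ : ∃ L : ℝ, L = Real.log N := ⟨_, rfl⟩
  rw [← hL] at hl hl0 hT ⊢
  have hLB : 1 ≤ L ^ (2 * U + 4 * t + 1) := one_le_pow₀ hl
  obtain ⟨s, hs⟩ : ∃ s : ℝ, s = ∑ a ∈ A, (((T a).card : ℝ) / D) := ⟨_, rfl⟩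
  rw [← hs]
  have hs0 : 0 ≤ s := by rw [hs]; exact sum_nonneg fun _ _ => by positivity
  rcases lt_or_ge N N0 with hlt | hge
  · -- small `N`
    have h1 : s ≤ N := by
      rw [hs]
      calc ∑ a ∈ A, (((T a).card : ℝ) / D) ≤ ∑ a ∈ A, (1 : ℝ) := by
            refine sum_le_sum fun a ha => ?_
            rw [div_le_one hD0]
            have := card_le_card (hTD a ha)
            rw [Nat.card_Ioc] at this
            exact_mod_cast (by omega : (T a).card ≤ D)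
        _ = A.card := by simp
        _ ≤ N := by
            have := card_le_card hA
            rw [Nat.card_Icc] at this
            exact_mod_cast (by omega : A.card ≤ N)
    have h2 : (N : ℝ) ≤ N0 := by exact_mod_cast hlt.le
    calc s ≤ (1200 * C0 + 1 + N0) * 1 := by linarith
      _ ≤ _ := mul_le_mul_of_nonneg_left (by linarith) (by positivity)
  -- large `N`
  obtain ⟨e1, e2, e3, e4⟩ := hN0 N hge
  simp only [Function.comp_apply] at e2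
  rw [← hL] at e1 e2 e3 e4
  obtain ⟨c, hc⟩ : ∃ c : ℕ → ℕ → ℝ, ∀ a d, c a d = if d ∈ T a then Real.sign (Er N d a) else 0 :=
    ⟨_, fun _ _ => rfl⟩
  have hτ1 : 1 ≤ L ^ t := one_le_pow₀ hl
  have hSp : ∀ a ∈ A, Sp D (T a) (L ^ t) (c a) := by
    intro a ha
    refine ⟨fun d => ?_, fun d hd => ?_, hTD a ha, fun d hd => (hT a ha d hd).2.1⟩
    · rw [hc]
      split_ifs
      · exact sign_abs _
      · simp
    · rw [hc, if_neg hd]
  obtain ⟨r, hr⟩ : ∃ r : ℕ → ℤ → ℝ, ∀ a n, r a n = rr (uu (c a) (2 * D) Q) (2 * D) a n :=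
    ⟨_, fun _ _ => rfl⟩
  have hcP : ∀ a ∈ A, ∀ d, c a d ≠ 0 → P N d := by
    intro a ha d hd
    by_contra hcon
    apply hd
    rw [hc, if_neg]
    intro hdT
    exact hcon (hTP a ha d hdT)
  -- the prime side
  have hps : ∀ a ∈ A, ((T a).card : ℝ) / D * (N / (2 * L ^ U)) ≤
      ∑ p ∈ (Icc 1 N).filter Nat.Prime, r a p := by
    intro a ha
    have h1 := hprime N D Q (T a) (L ^ t) (N / L ^ (U + 2 * t + 1)) (c a) (hSp a ha) hD1 q1 hQD hτ1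
      (by positivity) a (fun e he => (hT a ha e he).1) (fun e he => (hT a ha e he).2.2.1)
    have h2 : ∑ d ∈ T a, c a d * Er N d a = ∑ d ∈ T a, |Er N d a| := by
      refine sum_congr rfl fun d hd => ?_
      rw [hc, if_pos hd, TaskR2b.sign_mul]
    have h3 : ((T a).card : ℝ) / D * (N / L ^ U) ≤ ∑ d ∈ T a, |Er N d a| := by
      calc ((T a).card : ℝ) / D * (N / L ^ U) = ∑ d ∈ T a, N / (D * L ^ U) := by
            rw [sum_const, nsmul_eq_mul]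
            field_simp
        _ ≤ _ := sum_le_sum fun d hd => (hT a ha d hd).2.2.2
    rw [h2] at h1
    have h4 : (L ^ t) ^ 2 * (2 * D + N / L ^ (U + 2 * t + 1) + CP * (N / (Q : ℝ) ^ (3 / 4 : ℝ))) ≤
        N / (2 * L ^ U) := by
      have hLt : 0 < L ^ t := by positivity
      have hLU : 0 < L ^ U := by positivity
      have g1 : (L ^ t) ^ 2 * (2 * D) ≤ N / (8 * L ^ U) := by
        rw [le_div_iff₀ (by positivity)]
        have hD34 : (D : ℝ) ≤ (N : ℝ) ^ (3 / 4 : ℝ) := by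
          exact hDθ.trans (Real.rpow_le_rpow_of_exponent_le hNr1 hθ.le)
        have h5 : (N : ℝ) ^ (1 / 4 : ℝ) * (N : ℝ) ^ (3 / 4 : ℝ) = N := by
          rw [← Real.rpow_add hNr0]; norm_num
        calc (L ^ t) ^ 2 * (2 * D) * (8 * L ^ U) = (16 * L ^ (2 * t + U)) * D := by
              rw [pow_add, pow_mul']; ring
          _ ≤ (N : ℝ) ^ (1 / 4 : ℝ) * (N : ℝ) ^ (3 / 4 : ℝ) := by gcongr
          _ = N := h5
      have g2 : (L ^ t) ^ 2 * (N / L ^ (U + 2 * t + 1)) ≤ N / (8 * L ^ U) := by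
        have h5 : (L ^ t) ^ 2 * (N / L ^ (U + 2 * t + 1)) = N / (L * L ^ U) := by
          have : L ^ (U + 2 * t + 1) = (L ^ t) ^ 2 * (L * L ^ U) := by ring
          rw [this]
          field_simp
        rw [h5]
        gcongr
      have g3 : (L ^ t) ^ 2 * (CP * (N / (Q : ℝ) ^ (3 / 4 : ℝ))) ≤ N / (8 * L ^ U) := by
        have hQp : 0 < (Q : ℝ) ^ (3 / 4 : ℝ) := Real.rpow_pos_of_pos hQ0 _
        rw [le_div_iff₀ (by positivity)]
        have h5 : (N : ℝ) ^ (3 / 400 : ℝ) ≤ 2 * (Q : ℝ) ^ (3 / 4 : ℝ) := by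
          calc (N : ℝ) ^ (3 / 400 : ℝ) = ((N : ℝ) ^ (1 / 100 : ℝ)) ^ (3 / 4 : ℝ) := by
                rw [← Real.rpow_mul hNr0.le]; norm_num
            _ ≤ (2 * Q : ℝ) ^ (3 / 4 : ℝ) := Real.rpow_le_rpow (by positivity) q3 (by norm_num)
            _ = (2 : ℝ) ^ (3 / 4 : ℝ) * (Q : ℝ) ^ (3 / 4 : ℝ) :=
                Real.mul_rpow (by norm_num) hQ0.le
            _ ≤ 2 * (Q : ℝ) ^ (3 / 4 : ℝ) := by
                refine mul_le_mul_of_nonneg_right ?_ hQp.le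
                calc (2 : ℝ) ^ (3 / 4 : ℝ) ≤ (2 : ℝ) ^ (1 : ℝ) :=
                      Real.rpow_le_rpow_of_exponent_le (by norm_num) (by norm_num)
                  _ = 2 := Real.rpow_one _
        calc (L ^ t) ^ 2 * (CP * (N / (Q : ℝ) ^ (3 / 4 : ℝ))) * (8 * L ^ U)
            = (16 * CP * L ^ (2 * t + U)) * (N / (2 * (Q : ℝ) ^ (3 / 4 : ℝ))) := by
              rw [pow_add, pow_mul']; field_simp; ring
          _ ≤ (N : ℝ) ^ (3 / 400 : ℝ) * (N / (2 * (Q : ℝ) ^ (3 / 4 : ℝ))) := by gcongr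
          _ ≤ (2 * (Q : ℝ) ^ (3 / 4 : ℝ)) * (N / (2 * (Q : ℝ) ^ (3 / 4 : ℝ))) := by gcongr
          _ = N := by field_simp
      calc (L ^ t) ^ 2 * (2 * D + N / L ^ (U + 2 * t + 1) + CP * (N / (Q : ℝ) ^ (3 / 4 : ℝ)))
          = (L ^ t) ^ 2 * (2 * D) + (L ^ t) ^ 2 * (N / L ^ (U + 2 * t + 1)) +
              (L ^ t) ^ 2 * (CP * (N / (Q : ℝ) ^ (3 / 4 : ℝ))) := by ring
        _ ≤ N / (8 * L ^ U) + N / (8 * L ^ U) + N / (8 * L ^ U) := by linarith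
        _ ≤ N / (2 * L ^ U) := by
            have : (N : ℝ) / (2 * L ^ U) = N / (8 * L ^ U) + N / (8 * L ^ U) + N / (8 * L ^ U) +
                N / (8 * L ^ U) := by field_simp; norm_num
            rw [this]
            have : 0 ≤ (N : ℝ) / (8 * L ^ U) := by positivity
            linarith
    have h5 : ((T a).card : ℝ) / D * ((L ^ t) ^ 2 * (2 * D + N / L ^ (U + 2 * t + 1) +
        CP * (N / (Q : ℝ) ^ (3 / 4 : ℝ)))) ≤ ((T a).card : ℝ) / D * (N / (2 * L ^ U)) :=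
      mul_le_mul_of_nonneg_left h4 (by positivity)
    have h6 := (abs_le.mp (h1.trans h5)).1
    have h7 : ((T a).card : ℝ) / D * (N / L ^ U) = ((T a).card : ℝ) / D * (N / (2 * L ^ U)) +
        ((T a).card : ℝ) / D * (N / (2 * L ^ U)) := by field_simp; norm_num
    have h8 : ∑ p ∈ (Icc 1 N).filter Nat.Prime, r a p =
        ∑ p ∈ (Icc 1 N).filter Nat.Prime, rr (uu (c a) (2 * D) Q) (2 * D) a p :=
      sum_congr rfl fun p _ => hr a p
    rw [h8]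
    linarith
  -- duality
  have hAm : ∀ a ∈ A, (0 : ℤ) ≤ (a : ℤ) ∧ (a : ℤ) ≤ N := by
    intro a ha
    have := mem_Icc.1 (hA ha)
    omega
  have hrf : ∀ a, r a = fun n => rr (uu (c a) (2 * D) Q) (2 * D) a n := fun a => funext (hr a)
  have hd := dualT N hN1 A r
    (fun a _ a' _ => by
      rw [hrf a, hrf a']
      exact summable_rr N (2 * D) hN1 _ _ a a')
    (fun a => 12 * C0 * (N * Real.log N * (L ^ t) ^ 4 * ((T a).card / D)))
    (CO * R * (N : ℝ) ^ (1 - η₀))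
    (by
      intro a ha
      rw [hrf a]
      exact diag_sp hN3 (hSp a ha) hD1 hτ1 Q a (hAm a ha).1 (hAm a ha).2)
    (by
      intro a' ha'
      have hsub : A.erase a' ⊆ A := erase_subset _ _
      have hcle : ((A.erase a').card : ℝ) ≤ R := by
        refine le_trans ?_ hAR
        exact_mod_cast card_le_card hsub
      have h1 := hcorr N D (by omega) (by rw [← hQ]; exact hQD) hDθ (A.erase a') R hR1 hcle hRN
        (fun a ha => (mem_Icc.1 (hA (hsub ha))).2) a' (mem_Icc.1 (hA ha')).2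
        (notMem_erase a' A) c (c a') (fun a ha => (hSp a (hsub ha)).cof) (hSp a' ha').cof
        (fun a ha => hcP a (hsub ha)) (hcP a' ha')
      refine le_trans (le_of_eq ?_) ((le_abs_self _).trans h1)
      refine sum_congr rfl fun a _ => ?_
      rw [hrf a, hrf a', hQ])
  have hlow : s * (N / (2 * L ^ U)) ≤ ∑ a ∈ A, ∑ p ∈ (Icc 1 N).filter Nat.Prime, r a p := by
    rw [hs, sum_mul]
    exact sum_le_sum hps
  have hsq : (s * (N / (2 * L ^ U))) ^ 2 ≤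
      (∑ a ∈ A, ∑ p ∈ (Icc 1 N).filter Nat.Prime, r a p) ^ 2 :=
    pow_le_pow_left₀ (by positivity) hlow 2
  have hmain := hsq.trans hd
  rw [← hL] at hmain
  have hGs : ∑ a ∈ A, 12 * C0 * (N * L * (L ^ t) ^ 4 * ((T a).card / D)) =
      12 * C0 * (N * L * (L ^ t) ^ 4) * s := by
    rw [hs, mul_sum]
    exact sum_congr rfl fun a _ => by ring
  rw [hGs] at hmain
  have hO1 : (A.card : ℝ) * (CO * R * (N : ℝ) ^ (1 - η₀)) ≤ CO * R ^ 2 * (N : ℝ) ^ (1 - η₀) := by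
    calc (A.card : ℝ) * (CO * R * (N : ℝ) ^ (1 - η₀)) ≤ R * (CO * R * (N : ℝ) ^ (1 - η₀)) :=
          mul_le_mul_of_nonneg_right hAR (by positivity)
      _ = _ := by ring
  -- the quadratic inequality
  obtain ⟨Y, hY⟩ : ∃ Y : ℝ, Y = R * (N : ℝ) ^ (-(η₀ / 4)) := ⟨_, rfl⟩
  rw [← hY] at hY0 ⊢
  have hY2 : Y ^ 2 = R ^ 2 * (N : ℝ) ^ (-(η₀ / 2)) := by
    rw [hY, mul_pow, ← Real.rpow_natCast ((N : ℝ) ^ (-(η₀ / 4))), ← Real.rpow_mul hNr0.le]
    congr 2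
    push_cast
    ring
  have hNp : (N : ℝ) ^ (η₀ / 2) * (N : ℝ) ^ (1 - η₀) = N * (N : ℝ) ^ (-(η₀ / 2)) := by
    rw [← Real.rpow_add hNr0]
    nth_rewrite 2 [← Real.rpow_one (N : ℝ)]
    rw [← Real.rpow_add hNr0]
    congr 1
    ring
  have hLU : 0 < L ^ U := by positivity
  have hfin : s ^ 2 ≤ 1200 * C0 * L ^ (2 * U + 4 * t + 1) * s + Y ^ 2 := by
    have h1 : (s * (N / (2 * L ^ U))) ^ 2 ≤
        25 * N * (12 * C0 * (N * L * (L ^ t) ^ 4) * s + CO * R ^ 2 * (N : ℝ) ^ (1 - η₀)) := by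
      refine hmain.trans ?_
      gcongr
    have h2 : s ^ 2 * (N : ℝ) ^ 2 ≤ (1200 * C0 * L ^ (2 * U + 4 * t + 1) * s + Y ^ 2) *
        (N : ℝ) ^ 2 := by
      calc s ^ 2 * (N : ℝ) ^ 2 = (4 * L ^ (2 * U)) * (s * (N / (2 * L ^ U))) ^ 2 := by
            rw [mul_comm 2 U, pow_mul]
            field_simp
            norm_num
        _ ≤ (4 * L ^ (2 * U)) * (25 * N * (12 * C0 * (N * L * (L ^ t) ^ 4) * s +
              CO * R ^ 2 * (N : ℝ) ^ (1 - η₀))) := by gcongr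
        _ = 1200 * C0 * L ^ (2 * U + 4 * t + 1) * s * (N : ℝ) ^ 2 +
              N * R ^ 2 * ((100 * CO * L ^ (2 * U)) * (N : ℝ) ^ (1 - η₀)) := by
            rw [pow_add, pow_add, pow_mul' L 4 t]
            ring
        _ ≤ 1200 * C0 * L ^ (2 * U + 4 * t + 1) * s * (N : ℝ) ^ 2 +
              N * R ^ 2 * ((N : ℝ) ^ (η₀ / 2) * (N : ℝ) ^ (1 - η₀)) := by gcongr
        _ = _ := by
            rw [hNp, hY2]
            ring
    exact le_of_mul_le_mul_right h2 (by positivity)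
  obtain ⟨W, hW⟩ : ∃ W : ℝ, W = 1200 * C0 * L ^ (2 * U + 4 * t + 1) := ⟨_, rfl⟩
  rw [← hW] at hfin
  have hW0 : 0 ≤ W := by rw [hW]; positivity
  have hsW : s ≤ W + Y := by
    by_contra hcon
    push Not at hcon
    nlinarith
  calc s ≤ W + Y := hsW
    _ = 1200 * C0 * L ^ (2 * U + 4 * t + 1) + 1 * Y := by
        rw [hW]; ring
    _ ≤ (1200 * C0 + 1 + N0) * (L ^ (2 * U + 4 * t + 1) + Y) := by
        have h1 : 0 ≤ (N0 : ℝ) * (L ^ (2 * U + 4 * t + 1) + Y) := by positivity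
        have h2 : 0 ≤ 1200 * C0 * Y := by positivity
        nlinarith

end Pool.Agent.H82.LD
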