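import Pool.Agent.H82.LD.W3
import Pool.Graph.R_seed8.H442R2.FX.Ef

/-!
All frequencies for one `g`, several residues inside.
-/

set_option autoImplicit false

namespace Pool.Agent.H82.LD

open Finset
open Pool.Agent.H442R2.KF
open Pool.Agent.H442R2.FX
open Pool.Agent.H442R2.KF.TaskTM2 (trm sum_eq wei_zero)
open Pool.Agent.H442R2.FX.TaskEF (gam decomp gam_norm gam_ne range_bd bound2)

/-- squarefree numbers with a divisor in `[N ^ lo, N ^ hi]` -/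
def FacG (N : ℕ) (lo hi : ℝ) (d : ℕ) : Prop :=
  Squarefree d ∧ ∃ s : ℕ, s ∣ d ∧ (N : ℝ) ^ lo ≤ s ∧ (s : ℝ) ≤ (N : ℝ) ^ hi

/-- the divisor of `m` -/
theorem divisorG {N g m : ℕ} {lo hi : ℝ} (hg : 1 ≤ g) (h : FacG N lo hi (g * m)) :
    ∃ s : ℕ, s ∣ m ∧ (N : ℝ) ^ lo ≤ g * s ∧ (s : ℝ) ≤ (N : ℝ) ^ hi := by
  obtain ⟨_, t, ht, h1, h2⟩ := h
  have hgc : 0 < Nat.gcd t g := Nat.gcd_pos_of_pos_right _ hg
  have e1 : t / Nat.gcd t g * Nat.gcd t g = t := Nat.div_mul_cancel (Nat.gcd_dvd_left _ _)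
  have e2 : g / Nat.gcd t g * Nat.gcd t g = g := Nat.div_mul_cancel (Nat.gcd_dvd_right _ _)
  refine ⟨t / Nat.gcd t g, ?_, ?_, ?_⟩
  · have hco : Nat.Coprime (t / Nat.gcd t g) (g / Nat.gcd t g) := Nat.coprime_div_gcd_div_gcd hgc
    refine hco.dvd_of_dvd_mul_left ?_
    have h3 : t / Nat.gcd t g * Nat.gcd t g ∣ g / Nat.gcd t g * m * Nat.gcd t g := by
      rw [e1]
      calc t ∣ g * m := ht
        _ = g / Nat.gcd t g * Nat.gcd t g * m := by rw [e2]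
        _ = g / Nat.gcd t g * m * Nat.gcd t g := by ring
    exact Nat.dvd_of_mul_dvd_mul_right hgc h3
  · refine h1.trans ?_
    have h4 : t ≤ g * (t / Nat.gcd t g) := by
      calc t = t / Nat.gcd t g * Nat.gcd t g := e1.symm
        _ ≤ t / Nat.gcd t g * g :=
          Nat.mul_le_mul_left _ (Nat.le_of_dvd hg (Nat.gcd_dvd_right _ _))
        _ = _ := by ring
    exact_mod_cast h4
  · refine le_trans ?_ h2
    exact_mod_cast Nat.div_le_self _ _

/-- first term of the bound -/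
theorem bound1G {N D g S J : ℕ} {θ lo L : ℝ} (hN : 3 ≤ N) (hL : 1 ≤ L) (hg : 1 ≤ g) (hS : 1 ≤ S)
    (hJ : (J : ℝ) * (g * N) ≤ 4 * (D : ℝ) ^ 2 * L) (hD : (D : ℝ) ≤ (N : ℝ) ^ θ)
    (h : (N : ℝ) ^ lo ≤ g * (2 * S)) :
    (J : ℝ) / S ≤ 8 * L * (N : ℝ) ^ (2 * θ - 1 - lo) := by
  have hN0 : (0 : ℝ) < N := by
    have : 0 < N := by omega
    exact_mod_cast this
  have hg0 : (0 : ℝ) < g := by exact_mod_cast hg
  have hS0 : (0 : ℝ) < S := by exact_mod_cast hS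
  have hP : 0 < (N : ℝ) ^ (2 * θ - 1 - lo) := Real.rpow_pos_of_pos hN0 _
  have h1 : (D : ℝ) ^ 2 ≤ (N : ℝ) ^ lo * N * (N : ℝ) ^ (2 * θ - 1 - lo) := by
    calc (D : ℝ) ^ 2 ≤ ((N : ℝ) ^ θ) ^ 2 := pow_le_pow_left₀ (Nat.cast_nonneg _) hD 2
      _ = (N : ℝ) ^ (θ * (2 : ℕ)) := (Real.rpow_mul_natCast hN0.le θ 2).symm
      _ = (N : ℝ) ^ lo * (N : ℝ) ^ (1 : ℝ) * (N : ℝ) ^ (2 * θ - 1 - lo) := by
        rw [← Real.rpow_add hN0, ← Real.rpow_add hN0]
        congr 1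
        push_cast
        ring
      _ = _ := by rw [Real.rpow_one]
  rw [div_le_iff₀ hS0]
  have h2 : (J : ℝ) * (g * N) ≤ (8 * L * (N : ℝ) ^ (2 * θ - 1 - lo) * S) * (g * N) := by
    calc (J : ℝ) * (g * N) ≤ 4 * (D : ℝ) ^ 2 * L := hJ
      _ ≤ 4 * ((N : ℝ) ^ lo * N * (N : ℝ) ^ (2 * θ - 1 - lo)) * L := by gcongr
      _ ≤ 4 * ((g * (2 * S)) * N * (N : ℝ) ^ (2 * θ - 1 - lo)) * L := by gcongr
      _ = _ := by ring
  exact le_of_mul_le_mul_right h2 (by positivity)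

/-- all frequencies for one `g`, several residues inside -/
theorem EG (θ lo δ : ℝ) (hθ1 : 1 / 2 ≤ θ) (hθ2 : θ ≤ 1) (hδ : 0 < δ) :
    ∃ (η C : ℝ), 0 < η ∧ 0 < C ∧
    ∀ (N D g : ℕ), 3 ≤ N → (D : ℝ) ≤ (N : ℝ) ^ θ → 1 ≤ g → g ≤ D →
    ∀ (A : Finset ℕ) (R : ℝ), 1 ≤ R → (A.card : ℝ) ≤ R → (N : ℝ) ^ (2 * θ - 1 - lo + δ) ≤ R →
    (∀ a ∈ A, a ≤ N) →
    ∀ (k : ℕ → ℤ) (σ : ℤ), (σ = 1 ∨ σ = -1) → (∀ a ∈ A, k a ≠ 0) → Set.InjOn k A →
    (∀ a ∈ A, |(g : ℝ) * k a| ≤ N) →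
    ∀ (c : ℕ → ℕ → ℝ) (c' : ℕ → ℝ), (∀ a d, |c a d| ≤ 1) → (∀ d, |c' d| ≤ 1) →
    (∀ a d, c a d ≠ 0 → FacG N lo (4 - 7 * θ - δ) d) →
    ‖∑ a ∈ A, ∑ j ∈ Icc 1 ⌊4 * (D : ℝ) ^ 2 * Real.log N / (g * N)⌋₊,
      ∑ d₁ ∈ Ioc (D / g) (2 * (D / g) + 1),
      ∑ d₂ ∈ (Ioc (D / g) (2 * (D / g) + 1)).filter (fun d₂ => Nat.Coprime d₁ d₂),
        trm N g (a : ℤ) (k a) σ (c a) c' j d₁ d₂‖ ≤
      C * R * (N : ℝ) ^ (1 - η) / g := by
  have hε : 0 < δ / 24 := by positivity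
  obtain ⟨C0, hC0, HW⟩ := WA (δ / 24) hε
  have hK2 : 0 < C0 * (200 : ℝ) ^ (δ / 24) * 8000 * (36 / δ) ^ 3 := by positivity
  obtain ⟨K, hK0, hKK⟩ : ∃ K : ℝ, 0 < K ∧
      K ^ 2 = C0 * (200 : ℝ) ^ (δ / 24) * 8000 * (36 / δ) ^ 3 :=
    ⟨Real.sqrt _, Real.sqrt_pos.2 hK2, Real.sq_sqrt hK2.le⟩
  refine ⟨δ / 12, 84 / δ * K, by positivity, by positivity, ?_⟩
  intro N D g hN hD hg hgD A R hR1 hAR hRN haN k σ hσ hk hinj hgk c c' hc hc' hfac
  have hR0 : 0 < R := by linarith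
  set M := D / g with hMdef
  set J := ⌊4 * (D : ℝ) ^ 2 * Real.log N / (g * N)⌋₊ with hJdef
  have hM : 1 ≤ M := (Nat.one_le_div_iff (by omega)).2 hgD
  have hM' : (1 : ℝ) ≤ M := by exact_mod_cast hM
  have hM0 : (0 : ℝ) < M := by linarith
  have hg' : (1 : ℝ) ≤ g := by exact_mod_cast hg
  have hg0 : (0 : ℝ) < g := by linarith
  have hN' : (3 : ℝ) ≤ N := by exact_mod_cast hN
  have hNpos : (0 : ℝ) < N := by linarith
  have hN1 : (1 : ℝ) ≤ N := by linarith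
  have hlog : 1 ≤ Real.log N := by
    rw [Real.le_log_iff_exp_le (by linarith)]
    have := Real.exp_one_lt_d9
    linarith
  have hD2 : (D : ℝ) ≤ 2 * g * M := by
    have h1 : D < g * (M + 1) := by
      rw [hMdef]
      have := Nat.lt_mul_div_succ D (show 0 < g by omega)
      simpa using this
    have h2 : g * (M + 1) ≤ 2 * g * M := by nlinarith
    have h3 : D ≤ 2 * g * M := by omega
    exact_mod_cast h3
  have hDN : (D : ℝ) ≤ N := by
    refine hD.trans ?_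
    calc (N : ℝ) ^ θ ≤ (N : ℝ) ^ (1 : ℝ) :=
          Real.rpow_le_rpow_of_exponent_le hN1 (by linarith)
      _ = N := Real.rpow_one _
  have hMN : M ≤ N := by
    have h1 : D ≤ N := by exact_mod_cast hDN
    exact (Nat.div_le_self _ _).trans h1
  have hMNr : (M : ℝ) ≤ N := by exact_mod_cast hMN
  have hJle : (J : ℝ) ≤ 4 * (D : ℝ) ^ 2 * Real.log N / (g * N) :=
    Nat.floor_le (by positivity)
  have hJle' : (J : ℝ) * (g * N) ≤ 4 * (D : ℝ) ^ 2 * Real.log N := by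
    rwa [le_div_iff₀ (by positivity)] at hJle
  -- no frequency
  rcases Nat.eq_zero_or_pos J with hJ0 | hJpos
  · rw [hJ0]
    simp only [zero_lt_one, Finset.Icc_eq_empty_of_lt, Finset.sum_empty, Finset.sum_const_zero,
      norm_zero]
    positivity
  -- size of the frequencies
  have hJN : (J : ℝ) * N / g ≤ 16 * (M : ℝ) ^ 2 * Real.log N := by
    rw [div_le_iff₀ hg0]
    have h3 : ((J : ℝ) * N) * g ≤ (16 * (M : ℝ) ^ 2 * Real.log N * g) * g := by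
      calc ((J : ℝ) * N) * g = (J : ℝ) * (g * N) := by ring
        _ ≤ 4 * (D : ℝ) ^ 2 * Real.log N := hJle'
        _ ≤ 4 * (2 * g * M) ^ 2 * Real.log N := by gcongr
        _ = _ := by ring
    exact le_of_mul_le_mul_right h3 hg0
  have hσ1 : |(σ : ℝ)| = 1 := by
    rcases hσ with h | h <;> rw [h] <;> norm_num
  set Ψ : ℕ → ℕ → ℝ → ℂ :=
    fun a j s => if j ≤ J then TaskM2.psi M N g (σ * j) a s else 0 with hΨ
  have hW : ∀ a ∈ A, ∀ j : ℕ, Wei M (200 * Real.log N) (Ψ a j) := by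
    intro a ha j
    by_cases hj : j ≤ J
    · simp only [hΨ, if_pos hj]
      apply TaskM2.wei M N g (σ * j) a hM hg (by positivity) (by exact_mod_cast haN a ha) hlog
      refine le_trans ?_ hJN
      push_cast
      rw [abs_mul, hσ1, one_mul, abs_of_nonneg (Nat.cast_nonneg j)]
      have : (j : ℝ) ≤ J := by exact_mod_cast hj
      gcongr
    · simp only [hΨ, if_neg hj]
      exact wei_zero M _ (by positivity)
  have hk' : ∀ a ∈ A, |(k a : ℝ)| ≤ N / g := by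
    intro a ha
    rw [le_div_iff₀ hg0]
    have := hgk a ha
    rw [abs_mul, abs_of_pos hg0] at this
    linarith
  have hb : ∀ a ∈ A, |((σ * k a : ℤ) : ℝ)| * J ≤ 200 * Real.log N * (M : ℝ) ^ 2 := by
    intro a ha
    push_cast
    rw [abs_mul, hσ1, one_mul]
    calc |(k a : ℝ)| * J ≤ (N / g) * J := by
          have := hk' a ha
          gcongr
      _ = (J : ℝ) * N / g := by ring
      _ ≤ 16 * (M : ℝ) ^ 2 * Real.log N := hJN
      _ ≤ _ := by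
        have : 0 ≤ (M : ℝ) ^ 2 * Real.log N := by positivity
        nlinarith
  have hσ0 : σ ≠ 0 := by rcases hσ with h | h <;> rw [h] <;> norm_num
  have hσk : ∀ a ∈ A, σ * k a ≠ 0 := fun a ha => mul_ne_zero hσ0 (hk a ha)
  have hσinj : Set.InjOn (fun a => σ * k a) A := by
    intro a ha b hb h
    exact hinj ha hb (mul_left_cancel₀ hσ0 h)
  -- the divisors
  classical
  obtain ⟨s1, hs1⟩ : ∃ s1 : ℕ → ℕ, ∀ m, FacG N lo (4 - 7 * θ - δ) (g * m) → s1 m ∣ m ∧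
      (N : ℝ) ^ lo ≤ g * s1 m ∧ (s1 m : ℝ) ≤ (N : ℝ) ^ (4 - 7 * θ - δ) := by
    refine ⟨fun m => if h : FacG N lo (4 - 7 * θ - δ) (g * m) then (divisorG hg h).choose else 1,
      ?_⟩
    intro m h
    simp only [dif_pos h]
    exact (divisorG hg h).choose_spec
  set b : ℕ → ℕ → ℂ := fun a m => (c a (g * m) : ℂ) with hbdef
  have hb1 : ∀ a m, ‖b a m‖ ≤ 1 := fun a m => by
    rw [hbdef, Complex.norm_real]
    exact hc _ _
  have hbne : ∀ a m, b a m ≠ 0 → FacG N lo (4 - 7 * θ - δ) (g * m) := fun a m h =>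
    hfac a _ (fun h' => h (by rw [hbdef]; simp [h']))
  have hbig : ∑ a ∈ A, ∑ j ∈ Icc 1 J,
      ∑ d₁ ∈ Ioc M (2 * M + 1),
      ∑ d₂ ∈ (Ioc M (2 * M + 1)).filter (fun d₂ => Nat.Coprime d₁ d₂),
        trm N g (a : ℤ) (k a) σ (c a) c' j d₁ d₂ =
      (((N : ℝ) / (g * (M : ℝ) ^ 2) : ℝ) : ℂ) *
        ∑ i ∈ range (Nat.log 2 (2 * M + 1) + 1), ∑ a ∈ A, ∑ s ∈ Ico (2 ^ i) (2 * 2 ^ i),
        ∑ r ∈ Icc 1 (2 * M + 1), ∑ n ∈ (Ioc M (2 * M + 1)).filter (fun n => Nat.Coprime (r * s) n),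
          gam M (b a) s1 r s * (c' (g * n) : ℂ) * FF (Ψ a) (σ * k a) J n (r * s) := by
    rw [Finset.sum_comm (s := range _), Finset.mul_sum]
    refine Finset.sum_congr rfl fun a _ => ?_
    rw [sum_eq N g M J hM hg a (k a) σ hσ (c a) c']
    congr 1
    have hdec : ∑ m ∈ Ioc M (2 * M + 1),
          ∑ n ∈ (Ioc M (2 * M + 1)).filter (fun n => Nat.Coprime m n),
            (c a (g * m) : ℂ) * (c' (g * n) : ℂ) * FF (Ψ a) (σ * k a) J n m =
        ∑ m ∈ Ioc M (2 * M + 1), b a m *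
          ∑ n ∈ (Ioc M (2 * M + 1)).filter (fun n => Nat.Coprime m n),
            (c' (g * n) : ℂ) * FF (Ψ a) (σ * k a) J n m := by
      refine Finset.sum_congr rfl fun m _ => ?_
      rw [Finset.mul_sum]
      exact Finset.sum_congr rfl fun n _ => by rw [hbdef]; ring
    refine Eq.trans hdec ?_
    rw [decomp M (b a) s1 (fun m _ h => (hs1 m (hbne a m h)).1)
      (fun m => ∑ n ∈ (Ioc M (2 * M + 1)).filter (fun n => Nat.Coprime m n),
        (c' (g * n) : ℂ) * FF (Ψ a) (σ * k a) J n m)]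
    refine Finset.sum_congr rfl fun i _ => Finset.sum_congr rfl fun s _ =>
      Finset.sum_congr rfl fun r _ => ?_
    rw [Finset.mul_sum]
    exact Finset.sum_congr rfl fun n _ => by ring
  rw [hbig, norm_mul, Complex.norm_real, Real.norm_eq_abs, abs_of_nonneg (by positivity)]
  have hT : ∀ i ∈ range (Nat.log 2 (2 * M + 1) + 1),
      ‖∑ a ∈ A, ∑ s ∈ Ico (2 ^ i) (2 * 2 ^ i), ∑ r ∈ Icc 1 (2 * M + 1),
        ∑ n ∈ (Ioc M (2 * M + 1)).filter (fun n => Nat.Coprime (r * s) n),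
          gam M (b a) s1 r s * (c' (g * n) : ℂ) * FF (Ψ a) (σ * k a) J n (r * s)‖ ≤
      K * (N : ℝ) ^ (-(δ / 6)) * (M : ℝ) ^ 2 * R := by
    intro i _
    have hS : 1 ≤ 2 ^ i := Nat.one_le_two_pow
    generalize 2 ^ i = S at hS
    by_cases hne : ∃ a, ∃ s ∈ Ico S (2 * S), ∃ r, gam M (b a) s1 r s ≠ 0
    · obtain ⟨a0, s, hs, r, hr⟩ := hne
      have hs' := Finset.mem_Ico.1 hs
      obtain ⟨_, h2, h3⟩ := gam_ne M (b a0) s1 r s hr
      obtain ⟨_, h5, h6⟩ := hs1 _ (hbne _ _ h3)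
      rw [h2] at h5 h6
      have hsS : (s : ℝ) ≤ 2 * S := by exact_mod_cast hs'.2.le
      have hSs : (S : ℝ) ≤ s := by exact_mod_cast hs'.1
      have hS0 : (0 : ℝ) < S := by exact_mod_cast hS
      have b1 := bound1G (J := J) hN hlog hg hS hJle' hD
        (h5.trans (mul_le_mul_of_nonneg_left hsS hg0.le))
      have b2 := bound2 (J := J) (S := S) hN hlog hg (by linarith) hJle' hD hD2 (hSs.trans h6)
      have key := HW M S J hM hS (200 * Real.log N) (by linarith) A Ψ hW (fun a => σ * k a) hσk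
        hσinj hb (fun a => gam M (b a) s1) (fun n => (c' (g * n) : ℂ))
        (fun a => gam_norm M (b a) s1 (hb1 a))
        (fun n => by rw [Complex.norm_real]; exact hc' _)
        (fun a r s h => by
          obtain ⟨h7, h8, h9⟩ := gam_ne M (b a) s1 r s h
          refine ⟨?_, h7⟩
          exact (hbne _ _ h9).1.squarefree_of_dvd (Dvd.intro_left _ rfl))
      have hAJ : (A.card : ℝ) * J / S ≤ R ^ 2 * (8 * Real.log N * (N : ℝ) ^ (-δ)) := by
        have f1 : (N : ℝ) ^ (2 * θ - 1 - lo) = (N : ℝ) ^ (2 * θ - 1 - lo + δ) * (N : ℝ) ^ (-δ) := by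
          rw [← Real.rpow_add hNpos]
          congr 1
          ring
        have f2 : 0 ≤ (N : ℝ) ^ (-δ) := Real.rpow_nonneg hNpos.le _
        have f3 : (N : ℝ) ^ (2 * θ - 1 - lo) ≤ R * (N : ℝ) ^ (-δ) := by
          rw [f1]
          exact mul_le_mul_of_nonneg_right hRN f2
        calc (A.card : ℝ) * J / S = (A.card : ℝ) * (J / S) := by ring
          _ ≤ R * (8 * Real.log N * (N : ℝ) ^ (2 * θ - 1 - lo)) := by
              refine mul_le_mul hAR b1 (by positivity) hR0.le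
          _ ≤ R * (8 * Real.log N * (R * (N : ℝ) ^ (-δ))) := by gcongr
          _ = _ := by ring
      have hfinal : C0 * (200 * Real.log N * M) ^ (δ / 24) * (200 * Real.log N) *
          ((M : ℝ) ^ 4 * ((A.card : ℝ) * J) / S +
            (M : ℝ) ^ (7 / 2 : ℝ) * ((A.card : ℝ) * J) ^ 2 * (S : ℝ) ^ (1 / 2 : ℝ)) ≤
          (K * (N : ℝ) ^ (-(δ / 6)) * (M : ℝ) ^ 2 * R) ^ 2 := by
        have c1 : (M : ℝ) ^ 4 * ((A.card : ℝ) * J) / S +
            (M : ℝ) ^ (7 / 2 : ℝ) * ((A.card : ℝ) * J) ^ 2 * (S : ℝ) ^ (1 / 2 : ℝ) ≤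
            40 * Real.log N ^ 2 * (N : ℝ) ^ (-(δ / 2)) * (M : ℝ) ^ 4 * R ^ 2 := by
          have d1 : (M : ℝ) ^ 4 * ((A.card : ℝ) * J) / S ≤
              8 * Real.log N ^ 2 * (N : ℝ) ^ (-(δ / 2)) * (M : ℝ) ^ 4 * R ^ 2 := by
            have f1 : (N : ℝ) ^ (-δ) ≤ (N : ℝ) ^ (-(δ / 2)) :=
              Real.rpow_le_rpow_of_exponent_le hN1 (by linarith)
            have f2 : Real.log N ≤ Real.log N ^ 2 := by nlinarith
            calc (M : ℝ) ^ 4 * ((A.card : ℝ) * J) / S = (M : ℝ) ^ 4 * ((A.card : ℝ) * J / S) := by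
                  ring
              _ ≤ (M : ℝ) ^ 4 * (R ^ 2 * (8 * Real.log N * (N : ℝ) ^ (-δ))) := by gcongr
              _ ≤ (M : ℝ) ^ 4 * (R ^ 2 * (8 * Real.log N ^ 2 * (N : ℝ) ^ (-(δ / 2)))) := by gcongr
              _ = _ := by ring
          have d2 : (M : ℝ) ^ (7 / 2 : ℝ) * ((A.card : ℝ) * J) ^ 2 * (S : ℝ) ^ (1 / 2 : ℝ) ≤
              32 * Real.log N ^ 2 * (N : ℝ) ^ (-(δ / 2)) * (M : ℝ) ^ 4 * R ^ 2 := by
            have f1 : (M : ℝ) ^ (7 / 2 : ℝ) * Real.sqrt M = (M : ℝ) ^ 4 := by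
              rw [Real.sqrt_eq_rpow, ← Real.rpow_add hM0, ← Real.rpow_natCast (M : ℝ) 4]
              congr 1
              norm_num
            rw [← Real.sqrt_eq_rpow]
            have f2 : (A.card : ℝ) ^ 2 ≤ R ^ 2 := pow_le_pow_left₀ (Nat.cast_nonneg _) hAR 2
            have f3 : 0 ≤ (M : ℝ) ^ (7 / 2 : ℝ) := Real.rpow_nonneg hM0.le _
            calc (M : ℝ) ^ (7 / 2 : ℝ) * ((A.card : ℝ) * J) ^ 2 * Real.sqrt S =
                (M : ℝ) ^ (7 / 2 : ℝ) * ((A.card : ℝ) ^ 2 * ((J : ℝ) ^ 2 * Real.sqrt S)) := by ring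
              _ ≤ (M : ℝ) ^ (7 / 2 : ℝ) *
                  (R ^ 2 * (32 * Real.log N ^ 2 * (N : ℝ) ^ (-(δ / 2)) * Real.sqrt M)) := by
                  refine mul_le_mul_of_nonneg_left ?_ f3
                  exact mul_le_mul f2 b2 (by positivity) (by positivity)
              _ = 32 * Real.log N ^ 2 * (N : ℝ) ^ (-(δ / 2)) *
                  ((M : ℝ) ^ (7 / 2 : ℝ) * Real.sqrt M) * R ^ 2 := by ring
              _ = _ := by rw [f1]
          calc _ ≤ 8 * Real.log N ^ 2 * (N : ℝ) ^ (-(δ / 2)) * (M : ℝ) ^ 4 * R ^ 2 +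
                32 * Real.log N ^ 2 * (N : ℝ) ^ (-(δ / 2)) * (M : ℝ) ^ 4 * R ^ 2 :=
                add_le_add d1 d2
            _ = _ := by ring
        have c2 : (200 * Real.log N * M) ^ (δ / 24) ≤
            (200 : ℝ) ^ (δ / 24) * (N : ℝ) ^ (δ / 12) := by
          have f1 : Real.log N ≤ N := (Real.log_le_sub_one_of_pos hNpos).trans (by linarith)
          calc (200 * Real.log N * M) ^ (δ / 24) ≤ (200 * ((N : ℝ) ^ (2 : ℝ))) ^ (δ / 24) := by
                apply Real.rpow_le_rpow (by positivity) _ hε.le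
                rw [Real.rpow_two]
                calc 200 * Real.log N * M ≤ 200 * N * N := by gcongr
                  _ = _ := by ring
            _ = (200 : ℝ) ^ (δ / 24) * (N : ℝ) ^ (δ / 12) := by
                rw [Real.mul_rpow (by norm_num) (by positivity), ← Real.rpow_mul hNpos.le]
                congr 2
                ring
        have c3 : Real.log N ^ 3 ≤ (36 / δ) ^ 3 * (N : ℝ) ^ (δ / 12) := by
          have f1 : Real.log N ≤ (N : ℝ) ^ (δ / 36) / (δ / 36) :=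
            Real.log_le_rpow_div hNpos.le (by positivity)
          calc Real.log N ^ 3 ≤ ((N : ℝ) ^ (δ / 36) / (δ / 36)) ^ 3 :=
                pow_le_pow_left₀ (by positivity) f1 3
            _ = (36 / δ) ^ 3 * ((N : ℝ) ^ (δ / 36)) ^ 3 := by
                field_simp
            _ = (36 / δ) ^ 3 * (N : ℝ) ^ (δ / 12) := by
                rw [← Real.rpow_mul_natCast hNpos.le]
                congr 2
                push_cast
                ring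
        have c4 : (N : ℝ) ^ (δ / 12) * (N : ℝ) ^ (δ / 12) * (N : ℝ) ^ (-(δ / 2)) =
            ((N : ℝ) ^ (-(δ / 6))) ^ 2 := by
          rw [← Real.rpow_add hNpos, ← Real.rpow_add hNpos, ← Real.rpow_mul_natCast hNpos.le]
          congr 1
          push_cast
          ring
        calc C0 * (200 * Real.log N * M) ^ (δ / 24) * (200 * Real.log N) * _
            ≤ C0 * ((200 : ℝ) ^ (δ / 24) * (N : ℝ) ^ (δ / 12)) * (200 * Real.log N) *
              (40 * Real.log N ^ 2 * (N : ℝ) ^ (-(δ / 2)) * (M : ℝ) ^ 4 * R ^ 2) := by gcongr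
          _ = C0 * (200 : ℝ) ^ (δ / 24) * 8000 * (Real.log N ^ 3) * ((N : ℝ) ^ (δ / 12) *
              (N : ℝ) ^ (-(δ / 2)) * (M : ℝ) ^ 4 * R ^ 2) := by ring
          _ ≤ C0 * (200 : ℝ) ^ (δ / 24) * 8000 * ((36 / δ) ^ 3 * (N : ℝ) ^ (δ / 12)) *
              ((N : ℝ) ^ (δ / 12) * (N : ℝ) ^ (-(δ / 2)) * (M : ℝ) ^ 4 * R ^ 2) := by gcongr
          _ = (C0 * (200 : ℝ) ^ (δ / 24) * 8000 * (36 / δ) ^ 3) *
              ((N : ℝ) ^ (δ / 12) * (N : ℝ) ^ (δ / 12) * (N : ℝ) ^ (-(δ / 2))) *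
                ((M : ℝ) ^ 4 * R ^ 2) := by ring
          _ = _ := by rw [c4, ← hKK]; ring
      exact (pow_le_pow_iff_left₀ (norm_nonneg _) (by positivity) (by norm_num)).1
        (key.trans hfinal)
    · push Not at hne
      rw [Finset.sum_eq_zero fun a _ => Finset.sum_eq_zero fun s hs =>
        Finset.sum_eq_zero fun r _ => Finset.sum_eq_zero fun n _ => by
        rw [hne a s hs r, zero_mul, zero_mul], norm_zero]
      positivity
  have hsum : ‖∑ i ∈ range (Nat.log 2 (2 * M + 1) + 1), ∑ a ∈ A, ∑ s ∈ Ico (2 ^ i) (2 * 2 ^ i),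
        ∑ r ∈ Icc 1 (2 * M + 1), ∑ n ∈ (Ioc M (2 * M + 1)).filter (fun n => Nat.Coprime (r * s) n),
          gam M (b a) s1 r s * (c' (g * n) : ℂ) * FF (Ψ a) (σ * k a) J n (r * s)‖ ≤
      84 / δ * K * (N : ℝ) ^ (-(δ / 12)) * (M : ℝ) ^ 2 * R := by
    refine (norm_sum_le _ _).trans ((Finset.sum_le_sum hT).trans ?_)
    rw [Finset.sum_const, nsmul_eq_mul, Finset.card_range]
    have f1 : Real.log N ≤ (N : ℝ) ^ (δ / 12) / (δ / 12) :=
      Real.log_le_rpow_div hNpos.le (by positivity)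
    have f2 := range_bd hN hMN hlog
    have f3 : (N : ℝ) ^ (δ / 12) * (N : ℝ) ^ (-(δ / 6)) = (N : ℝ) ^ (-(δ / 12)) := by
      rw [← Real.rpow_add hNpos]
      congr 1
      ring
    calc ((Nat.log 2 (2 * M + 1) + 1 : ℕ) : ℝ) * (K * (N : ℝ) ^ (-(δ / 6)) * (M : ℝ) ^ 2 * R)
        ≤ (7 * Real.log N) * (K * (N : ℝ) ^ (-(δ / 6)) * (M : ℝ) ^ 2 * R) := by gcongr
      _ ≤ (7 * ((N : ℝ) ^ (δ / 12) / (δ / 12))) *
          (K * (N : ℝ) ^ (-(δ / 6)) * (M : ℝ) ^ 2 * R) := by gcongr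
      _ = 84 / δ * K * ((N : ℝ) ^ (δ / 12) * (N : ℝ) ^ (-(δ / 6))) * (M : ℝ) ^ 2 * R := by
        field_simp
        ring
      _ = _ := by rw [f3]
  calc (N : ℝ) / (g * (M : ℝ) ^ 2) * _
      ≤ (N : ℝ) / (g * (M : ℝ) ^ 2) *
        (84 / δ * K * (N : ℝ) ^ (-(δ / 12)) * (M : ℝ) ^ 2 * R) :=
        mul_le_mul_of_nonneg_left hsum (by positivity)
    _ = 84 / δ * K * R * ((N : ℝ) * (N : ℝ) ^ (-(δ / 12))) / g := by
        field_simp
    _ = _ := by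
        have : (N : ℝ) * (N : ℝ) ^ (-(δ / 12)) = (N : ℝ) ^ (1 - δ / 12) := by
          rw [sub_eq_add_neg, Real.rpow_add hNpos, Real.rpow_one]
        rw [this]

end Pool.Agent.H82.LD
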