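import Pool.Agent.H82.LD.M1

/-!
The number of exceptional residues.
-/

set_option autoImplicit false

namespace Pool.Agent.H82.LD

open Finset
open Pool.Agent.H442R2.KF
open Pool.Agent.H442R2.FX
open Pool.Agent.W109.C

/-- the trivial bound for the error with `li` -/
theorem Eli_triv : ∃ C : ℝ, 0 < C ∧ ∀ N q a : ℕ, 3 ≤ N → 1 ≤ q → q ≤ N →
    |Eli N q a| ≤ C * (N * (1 / (Nat.totient q : ℝ))) := by
  obtain ⟨C', hC', h2⟩ := pnt_li 0
  refine ⟨3 + C', by positivity, fun N q a hN hq hqN => ?_⟩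
  have e1 : Eli N q a = Er N q a + ((piN N : ℝ) - liN N) * (1 / (Nat.totient q : ℝ)) := by
    unfold Eli Er
    ring
  have h3 := h2 N hN
  rw [pow_zero, div_one] at h3
  rw [e1]
  refine (abs_add_le _ _).trans ?_
  rw [abs_mul, abs_of_nonneg (by positivity : (0 : ℝ) ≤ 1 / (Nat.totient q : ℝ))]
  have h4 := Er_triv N q a hq hqN
  have h5 : |(piN N : ℝ) - liN N| * (1 / (Nat.totient q : ℝ)) ≤
      C' * N * (1 / (Nat.totient q : ℝ)) := mul_le_mul_of_nonneg_right h3 (by positivity)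
  calc |Er N q a| + |(piN N : ℝ) - liN N| * (1 / (Nat.totient q : ℝ))
      ≤ 3 * (N * (1 / (Nat.totient q : ℝ))) + C' * N * (1 / (Nat.totient q : ℝ)) :=
        add_le_add h4 h5
    _ = _ := by ring

/-- the number of exceptional residues -/
theorem card_exc (θ ρ : ℝ) (hθ : θ < 3 / 4) (P : ℕ → ℕ → Prop) (hPc : HCorrA θ ρ P) (U : ℕ) :
    ∃ (B : ℕ) (C : ℝ), 0 < C ∧ ∀ N : ℕ, 3 ≤ N → ∀ E : Finset ℕ, E ⊆ Icc 1 N →
    (∀ a ∈ E, (N : ℝ) / Real.log N ^ U <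
      ∑ q ∈ (mo P N θ).filter (fun q => Nat.Coprime a q), |Eli N q a|) →
    (E.card : ℝ) ≤ C * (Real.log N ^ B + (N : ℝ) ^ ρ) := by
  classical
  obtain ⟨η, hη, h⟩ := main_liA θ ρ hθ P hPc
  obtain ⟨B, C, hC, hU⟩ := h (U + 1)
  obtain ⟨C1, hC1, htriv⟩ := Eli_triv
  obtain ⟨K, hK⟩ : ∃ K : ℝ, K = 2 * C1 * C := ⟨_, rfl⟩
  have hK0 : 0 < K := by rw [hK]; positivity
  obtain ⟨N0, hN0⟩ := Filter.eventually_atTop.mp
    ((ev_log U (2 * K) η hη).and
      (((Real.tendsto_log_atTop.comp (tendsto_natCast_atTop_atTop (R := ℝ))).eventually_ge_atTop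
        (2 * C))))
  refine ⟨B + U, 2 * K + 2 + N0, by positivity, fun N hN E hE hexc => ?_⟩
  have hl := TaskR2b.one_le_log hN
  have hl0 : 0 < Real.log N := by linarith
  have hNr : (3 : ℝ) ≤ N := by exact_mod_cast hN
  have hNr1 : (1 : ℝ) ≤ N := by linarith
  have hNr0 : (0 : ℝ) < N := by linarith
  have hρ0 : 0 < (N : ℝ) ^ ρ := Real.rpow_pos_of_pos hNr0 _
  have hLB1 : 1 ≤ Real.log N ^ (B + U) := one_le_pow₀ hl
  rcases lt_or_ge N N0 with hlt | hge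
  · have h1 : (E.card : ℝ) ≤ N := by
      have := card_le_card hE
      rw [Nat.card_Icc] at this
      exact_mod_cast (by omega : E.card ≤ N)
    have h2 : (N : ℝ) ≤ N0 := by exact_mod_cast hlt.le
    calc (E.card : ℝ) ≤ (2 * K + 2 + N0) * 1 := by linarith
      _ ≤ _ := mul_le_mul_of_nonneg_left (by linarith) (by positivity)
  obtain ⟨e1, e2⟩ := hN0 N hge
  simp only [Function.comp_apply] at e2
  obtain ⟨Z, -, hZ2⟩ := hU N hN
  obtain ⟨R, hR⟩ : ∃ R : ℝ, R = 1 + E.card + (N : ℝ) ^ ρ := ⟨_, rfl⟩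
  have hcard0 : (0 : ℝ) ≤ E.card := Nat.cast_nonneg _
  obtain ⟨X, hX0, hX1, -, hX3⟩ := hZ2 E hE R (by rw [hR]; linarith) (by rw [hR]; linarith)
    (by rw [hR]; linarith)
  obtain ⟨L, hL⟩ : ∃ L : ℝ, L = Real.log N := ⟨_, rfl⟩
  rw [← hL] at hl hl0 hexc hX1 hX3 e1 e2 hLB1 ⊢
  have hLU : 0 < L ^ U := by positivity
  have hMN : ⌊(N : ℝ) ^ θ⌋₊ ≤ N := by
    apply Nat.floor_le_of_le
    calc (N : ℝ) ^ θ ≤ (N : ℝ) ^ (1 : ℝ) :=
          Real.rpow_le_rpow_of_exponent_le hNr1 (by linarith)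
      _ = N := Real.rpow_one _
  -- one residue
  have hone : ∀ a ∈ E, (N : ℝ) / L ^ U ≤ C * (N / L ^ (U + 1)) +
      ∑ q ∈ Icc 1 ⌊(N : ℝ) ^ θ⌋₊, if a ∈ X q then C1 * (N * (1 / (Nat.totient q : ℝ))) else 0 := by
    intro a ha
    refine (hexc a ha).le.trans ?_
    have h1 : ∑ q ∈ (mo P N θ).filter (fun q => Nat.Coprime a q), |Eli N q a| ≤
        ∑ q ∈ (mo P N θ).filter (fun q => a ∈ E ∧ a ∉ X q ∧ Nat.Coprime a q), |Eli N q a| +
        ∑ q ∈ (mo P N θ).filter (fun q => a ∈ X q), |Eli N q a| := by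
      rw [← sum_union]
      · refine sum_le_sum_of_subset_of_nonneg ?_ fun _ _ _ => abs_nonneg _
        intro q hq
        rw [mem_filter] at hq
        rw [mem_union, mem_filter, mem_filter]
        by_cases hx : a ∈ X q
        · exact Or.inr ⟨hq.1, hx⟩
        · exact Or.inl ⟨hq.1, ha, hx, hq.2⟩
      · rw [disjoint_left]
        intro q hq hq'
        rw [mem_filter] at hq hq'
        exact hq.2.2.1 hq'.2
    refine h1.trans (add_le_add (hX3 (fun _ => a)) ?_)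
    rw [← sum_filter]
    calc ∑ q ∈ (mo P N θ).filter (fun q => a ∈ X q), |Eli N q a| ≤
          ∑ q ∈ (mo P N θ).filter (fun q => a ∈ X q), C1 * (N * (1 / (Nat.totient q : ℝ))) := by
          refine sum_le_sum fun q hq => ?_
          have h2 := (mem_mo.1 (mem_filter.1 hq).1).1
          rw [mem_Icc] at h2
          exact htriv N q a hN h2.1 (h2.2.trans hMN)
      _ ≤ _ := by
          refine sum_le_sum_of_subset_of_nonneg ?_ fun _ _ _ => by positivity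
          intro q hq
          rw [mem_filter] at hq ⊢
          exact ⟨(mem_mo.1 hq.1).1, hq.2⟩
  have hsum : (E.card : ℝ) * (N / L ^ U) ≤ E.card * (C * (N / L ^ (U + 1))) +
      C1 * N * (C * (L ^ B + R * (N : ℝ) ^ (-η))) := by
    have h1 : ∑ a ∈ E, (N : ℝ) / L ^ U ≤ ∑ a ∈ E, (C * (N / L ^ (U + 1)) +
        ∑ q ∈ Icc 1 ⌊(N : ℝ) ^ θ⌋₊, if a ∈ X q then C1 * (N * (1 / (Nat.totient q : ℝ))) else 0) :=
      sum_le_sum hone
    rw [sum_const, nsmul_eq_mul, sum_add_distrib, sum_const, nsmul_eq_mul, sum_comm] at h1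
    refine h1.trans (add_le_add le_rfl ?_)
    calc ∑ q ∈ Icc 1 ⌊(N : ℝ) ^ θ⌋₊, ∑ a ∈ E,
          (if a ∈ X q then C1 * (N * (1 / (Nat.totient q : ℝ))) else 0)
        = ∑ q ∈ Icc 1 ⌊(N : ℝ) ^ θ⌋₊, C1 * N * (((X q).card : ℝ) / (Nat.totient q : ℝ)) := by
          refine sum_congr rfl fun q _ => ?_
          rw [← sum_filter, sum_const, nsmul_eq_mul]
          have : E.filter (fun a => a ∈ X q) = X q := by
            ext a
            rw [mem_filter]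
            exact ⟨fun h => h.2, fun h => ⟨hX0 q h, h⟩⟩
          rw [this]
          ring
      _ = C1 * N * ∑ q ∈ Icc 1 ⌊(N : ℝ) ^ θ⌋₊, ((X q).card : ℝ) / (Nat.totient q : ℝ) := by
          rw [mul_sum]
      _ ≤ _ := mul_le_mul_of_nonneg_left hX1 (by positivity)
  -- solve for the cardinality
  have h2 : (E.card : ℝ) ≤ K * (L ^ U * (L ^ B + R * (N : ℝ) ^ (-η))) := by
    have h3 : (E.card : ℝ) * (C * (N / L ^ (U + 1))) ≤ E.card * (N / L ^ U) / 2 := by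
      have h4 : C * ((N : ℝ) / L ^ (U + 1)) ≤ N / L ^ U / 2 := by
        rw [pow_succ, div_div, mul_div_assoc', div_le_div_iff₀ (by positivity) (by positivity)]
        nlinarith [mul_pos hNr0 hLU]
      calc (E.card : ℝ) * (C * (N / L ^ (U + 1))) ≤ E.card * (N / L ^ U / 2) :=
            mul_le_mul_of_nonneg_left h4 hcard0
        _ = _ := by ring
    have h5 : (E.card : ℝ) * (N / L ^ U) ≤ 2 * (C1 * N * (C * (L ^ B + R * (N : ℝ) ^ (-η)))) := by
      linarith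
    have h6 : (E.card : ℝ) * (N / L ^ U) * (L ^ U / N) ≤
        2 * (C1 * N * (C * (L ^ B + R * (N : ℝ) ^ (-η)))) * (L ^ U / N) :=
      mul_le_mul_of_nonneg_right h5 (by positivity)
    have h7 : (E.card : ℝ) * (N / L ^ U) * (L ^ U / N) = E.card := by
      field_simp
    have h8 : 2 * (C1 * N * (C * (L ^ B + R * (N : ℝ) ^ (-η)))) * (L ^ U / N) =
        K * (L ^ U * (L ^ B + R * (N : ℝ) ^ (-η))) := by
      rw [hK]
      field_simp
    rw [h7, h8] at h6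
    exact h6
  have h3 : K * (L ^ U * (R * (N : ℝ) ^ (-η))) ≤ R / 2 := by
    have h4 : 2 * K * L ^ U * (N : ℝ) ^ (-η) ≤ 1 := by
      calc 2 * K * L ^ U * (N : ℝ) ^ (-η) ≤ (N : ℝ) ^ η * (N : ℝ) ^ (-η) :=
            mul_le_mul_of_nonneg_right e1 (Real.rpow_nonneg hNr0.le _)
        _ = 1 := by rw [← Real.rpow_add hNr0, add_neg_cancel, Real.rpow_zero]
    have hR0 : 0 ≤ R := by rw [hR]; positivity
    calc K * (L ^ U * (R * (N : ℝ) ^ (-η))) = R * (2 * K * L ^ U * (N : ℝ) ^ (-η)) / 2 := by ring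
      _ ≤ R * 1 / 2 := by gcongr
      _ = _ := by ring
  have h4 : (E.card : ℝ) ≤ K * L ^ (B + U) + R / 2 := by
    calc (E.card : ℝ) ≤ K * (L ^ U * (L ^ B + R * (N : ℝ) ^ (-η))) := h2
      _ = K * L ^ (B + U) + K * (L ^ U * (R * (N : ℝ) ^ (-η))) := by rw [pow_add]; ring
      _ ≤ _ := add_le_add le_rfl h3
  rw [hR] at h4
  have h5 : (E.card : ℝ) ≤ 2 * K * L ^ (B + U) + 1 + (N : ℝ) ^ ρ := by linarith
  refine h5.trans ?_
  have h6 : 0 ≤ 2 * K * (N : ℝ) ^ ρ := by positivity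
  have h7 : 0 ≤ (N0 : ℝ) * (L ^ (B + U) + (N : ℝ) ^ ρ) := by positivity
  nlinarith

end Pool.Agent.H82.LD
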