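import Pool.Graph.R_seed8.H442R2.FX.Wf

/-!
Trilinear forms with Kloosterman fractions, one factorable variable, with several residues inside:
Cauchy-Schwarz over `(r, n)` with the residue inside, and Weil's bound.
-/

set_option autoImplicit false

namespace Pool.Agent.H82.LD

open Finset
open Pool.Agent.H442R2.KF
open Pool.Agent.H442R2.FX
open Pool.Agent.H442R2.FX.TaskWF (conj_kf kf_prod low_bd gcd_le lip3 cauchy_n)
open Pool.Agent.H442R2.KF.TaskA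
open Pool.Agent.H262R4.FR.TW2 (W1c)

/-- the numerator attached to two terms -/
def Bh (h1 h2 : ℤ) (s1 s2 : ℕ) : ℤ :=
  h1 * (s2 / Nat.gcd s1 s2 : ℕ) - h2 * (s1 / Nat.gcd s1 s2 : ℕ)

theorem Bh_ne (h1 h2 : ℤ) (s1 s2 : ℕ) (hs1 : 0 < s1) (h : h1 * s2 ≠ h2 * s1) :
    Bh h1 h2 s1 s2 ≠ 0 := by
  unfold Bh
  intro h0
  apply h
  have hv : 0 < Nat.gcd s1 s2 := Nat.gcd_pos_of_pos_left _ hs1
  obtain ⟨m1, hm1⟩ := Nat.gcd_dvd_left s1 s2
  obtain ⟨m2, hm2⟩ := Nat.gcd_dvd_right s1 s2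
  set v := Nat.gcd s1 s2 with hvdef
  have e1 : s1 / v = m1 := by rw [hm1]; exact Nat.mul_div_cancel_left _ hv
  have e2 : s2 / v = m2 := by rw [hm2]; exact Nat.mul_div_cancel_left _ hv
  rw [e1, e2] at h0
  rw [hm1, hm2]
  push_cast
  linear_combination (v : ℤ) * h0

theorem Bh_abs_le (h1 h2 : ℤ) (s1 s2 S : ℕ) (W : ℝ) (hs1 : s1 ≤ 2 * S) (hs2 : s2 ≤ 2 * S)
    (hh1 : |(h1 : ℝ)| ≤ W) (hh2 : |(h2 : ℝ)| ≤ W) : ((Bh h1 h2 s1 s2).natAbs : ℝ) ≤ W * (4 * S) := by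
  have hW : 0 ≤ W := (abs_nonneg _).trans hh1
  have a1 : ((s2 / Nat.gcd s1 s2 : ℕ) : ℝ) ≤ 2 * S := by
    exact_mod_cast (Nat.div_le_self _ _).trans hs2
  have a2 : ((s1 / Nat.gcd s1 s2 : ℕ) : ℝ) ≤ 2 * S := by
    exact_mod_cast (Nat.div_le_self _ _).trans hs1
  have h3 : ((Bh h1 h2 s1 s2).natAbs : ℝ) = |((Bh h1 h2 s1 s2 : ℤ) : ℝ)| := by
    rw [Nat.cast_natAbs, Int.cast_abs]
  rw [h3]
  unfold Bh
  rw [Int.cast_sub, Int.cast_mul, Int.cast_mul, Int.cast_natCast, Int.cast_natCast]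
  refine (abs_sub _ _).trans ?_
  rw [abs_mul, abs_mul, Nat.abs_cast, Nat.abs_cast]
  calc |(h1 : ℝ)| * ((s2 / Nat.gcd s1 s2 : ℕ) : ℝ) + |(h2 : ℝ)| * ((s1 / Nat.gcd s1 s2 : ℕ) : ℝ)
      ≤ W * (2 * S) + W * (2 * S) := by gcongr
    _ = _ := by ring

/-- one term -/
noncomputable def bw {ι : Type} (γ : ι → ℕ → ℕ → ℂ) (ψ : ι → ℝ → ℂ) (H : ι → ℤ) (r s : ℕ) (i : ι)
    (n : ℕ) : ℂ :=
  if Nat.Coprime (r * s) n then
    γ i r s * (ψ i (((r * s : ℕ) : ℝ) * n) * kf (H i) ((r * s : ℕ) : ℤ) n)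
  else 0

theorem norm_bw_le {ι : Type} (M : ℕ) (V : ℝ) (γ : ι → ℕ → ℕ → ℂ) (ψ : ι → ℝ → ℂ)
    (i : ι) (hψ : Wei M V (ψ i)) (hγ1 : ∀ r s, ‖γ i r s‖ ≤ 1)
    (hγ2 : ∀ r s, γ i r s ≠ 0 → Squarefree (r * s) ∧ r * s ∈ Ioc M (2 * M + 1))
    (H : ι → ℤ) (r s n : ℕ) (hn : M < n) : ‖bw γ ψ H r s i n‖ ≤ 1 := by
  unfold bw
  split_ifs
  · by_cases hz : γ i r s = 0
    · rw [hz, zero_mul, norm_zero]; exact zero_le_one
    · have h1 := (Finset.mem_Ioc.1 (hγ2 r s hz).2).1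
      rw [norm_mul, norm_mul, norm_kf, mul_one]
      have h2 : ‖ψ i (((r * s : ℕ) : ℝ) * n)‖ ≤ 1 :=
        hψ.bd _ (low_bd M (r * s) n h1 (by exact_mod_cast hn.le))
      calc _ ≤ (1 : ℝ) * 1 := mul_le_mul (hγ1 r s) h2 (norm_nonneg _) zero_le_one
        _ = 1 := one_mul 1
  · simp

theorem inner {ι : Type} (ε C : ℝ) (hε : 0 < ε) (hC : 0 < C) (hW : W1c ε C) (M S : ℕ) (hM : 1 ≤ M)
    (hS : 1 ≤ S) (V : ℝ) (hV : 1 ≤ V) (ψ : ι → ℝ → ℂ) (H : ι → ℤ) (γ : ι → ℕ → ℕ → ℂ)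
    (i1 i2 : ι) (hψ1 : Wei M V (ψ i1)) (hψ2 : Wei M V (ψ i2))
    (hH1 : |(H i1 : ℝ)| ≤ V * (M : ℝ) ^ 2) (hH2 : |(H i2 : ℝ)| ≤ V * (M : ℝ) ^ 2)
    (hγ1 : ∀ i r s, ‖γ i r s‖ ≤ 1)
    (hγ2 : ∀ i r s, γ i r s ≠ 0 → Squarefree (r * s) ∧ r * s ∈ Ioc M (2 * M + 1))
    (r s1 s2 : ℕ) (hs1 : s1 ∈ Ico S (2 * S)) (hs2 : s2 ∈ Ico S (2 * S))
    (hne : H i1 * s2 ≠ H i2 * s1) :
    ‖∑ n ∈ Ioc M (2 * M + 1), bw γ ψ H r s1 i1 n * (starRingEnd ℂ) (bw γ ψ H r s2 i2 n)‖ ≤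
      C * (6 * M * S : ℝ) ^ ε * (21 * V) * (6 * Real.sqrt (M * S)) *
        Real.sqrt (Int.gcd (Bh (H i1) (H i2) s1 s2) r) := by
  have hM0 : (0 : ℝ) < M := by exact_mod_cast hM
  have hM1 : (1 : ℝ) ≤ M := by exact_mod_cast hM
  have hS0 : (0 : ℝ) < S := by exact_mod_cast hS
  have hV0 : 0 < V := by linarith
  have hRnn : 0 ≤ C * (6 * M * S : ℝ) ^ ε * (21 * V) * (6 * Real.sqrt (M * S)) *
        Real.sqrt (Int.gcd (Bh (H i1) (H i2) s1 s2) r) := by positivity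
  by_cases hz1 : γ i1 r s1 = 0
  · have h0 : ∀ n ∈ Ioc M (2 * M + 1), bw γ ψ H r s1 i1 n *
        (starRingEnd ℂ) (bw γ ψ H r s2 i2 n) = 0 := by
      intro n _
      have : bw γ ψ H r s1 i1 n = 0 := by unfold bw; simp [hz1]
      rw [this, zero_mul]
    rw [Finset.sum_eq_zero h0, norm_zero]
    exact hRnn
  by_cases hz2 : γ i2 r s2 = 0
  · have h0 : ∀ n ∈ Ioc M (2 * M + 1), bw γ ψ H r s1 i1 n *
        (starRingEnd ℂ) (bw γ ψ H r s2 i2 n) = 0 := by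
      intro n _
      have : bw γ ψ H r s2 i2 n = 0 := by unfold bw; simp [hz2]
      rw [this, map_zero, mul_zero]
    rw [Finset.sum_eq_zero h0, norm_zero]
    exact hRnn
  obtain ⟨hsq1, hco1⟩ := hγ2 i1 r s1 hz1
  obtain ⟨hsq2, hco2⟩ := hγ2 i2 r s2 hz2
  rw [Finset.mem_Ioc] at hco1 hco2
  rw [Finset.mem_Ico] at hs1 hs2
  have hs10 : 0 < s1 := by omega
  have hs20 : 0 < s2 := by omega
  have hr0 : 0 < r := Nat.pos_of_ne_zero (by rintro rfl; simp at hco1)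
  have hB0 := Bh_ne (H i1) (H i2) s1 s2 hs10 hne
  have hg : 0 < Nat.gcd s1 s2 := Nat.gcd_pos_of_pos_left _ hs10
  obtain ⟨t1, ht1⟩ := Nat.gcd_dvd_left s1 s2
  obtain ⟨t2, ht2⟩ := Nat.gcd_dvd_right s1 s2
  have htco : Nat.Coprime t1 t2 := by
    have := Nat.coprime_div_gcd_div_gcd hg
    rwa [Nat.div_eq_of_eq_mul_right hg ht1, Nat.div_eq_of_eq_mul_right hg ht2] at this
  have hB0e : Bh (H i1) (H i2) s1 s2 = H i1 * t2 - H i2 * t1 := by
    unfold Bh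
    rw [Nat.div_eq_of_eq_mul_right hg ht1, Nat.div_eq_of_eq_mul_right hg ht2]
  set g := Nat.gcd s1 s2 with hgdef
  rw [hB0e] at hB0 ⊢
  have ht10 : 0 < t1 := Nat.pos_of_ne_zero (by rintro rfl; simp at ht1; omega)
  have ht20 : 0 < t2 := Nat.pos_of_ne_zero (by rintro rfl; simp at ht2; omega)
  set B : ℤ := H i1 * t2 - H i2 * t1 with hB
  obtain ⟨w, hw⟩ : ∃ w : ℕ, w = g * (t1 * t2) := ⟨_, rfl⟩
  have hw0 : 0 < w := by rw [hw]; positivity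
  obtain ⟨q, hq⟩ : ∃ q : ℕ, q = r * w := ⟨_, rfl⟩
  have hq0 : 0 < q := by rw [hq]; positivity
  have hr1 : (r * s1) * t2 = q := by rw [hq, hw, ht1]; ring
  have hr2 : (r * s2) * t1 = q := by rw [hq, hw, ht2]; ring
  -- squarefree
  have hqsq : Squarefree q := by
    have h1 : Squarefree ((r * g) * t1) := by
      have : (r * g) * t1 = r * s1 := by rw [ht1]; ring
      rwa [this]
    have h2 : Squarefree ((r * g) * t2) := by
      have : (r * g) * t2 = r * s2 := by rw [ht2]; ring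
      rwa [this]
    rw [Nat.squarefree_mul_iff] at h1 h2
    have h3 : Squarefree ((r * g) * t1 * t2) := by
      rw [Nat.squarefree_mul_iff]
      refine ⟨Nat.Coprime.mul_left h2.1 htco, ?_, h2.2.2⟩
      rw [Nat.squarefree_mul_iff]
      exact h1
    have h4 : q = (r * g) * t1 * t2 := by rw [hq, hw]; ring
    rwa [h4]
  have hiff : ∀ n : ℕ, (Nat.Coprime (r * s1) n ∧ Nat.Coprime (r * s2) n) ↔ Nat.Coprime n q := by
    intro n
    constructor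
    · rintro ⟨h1, h2⟩
      rw [← hr1]
      refine Nat.Coprime.mul_right h1.symm ?_
      exact h2.symm.coprime_dvd_right ⟨r * g, by rw [ht2]; ring⟩
    · intro h1
      exact ⟨(h1.coprime_dvd_right (Dvd.intro _ hr1)).symm,
        (h1.coprime_dvd_right (Dvd.intro _ hr2)).symm⟩
  -- rewriting the sum
  set Ω : ℝ → ℂ := fun x => ψ i1 (((r * s1 : ℕ) : ℝ) * x) *
    (starRingEnd ℂ) (ψ i2 (((r * s2 : ℕ) : ℝ) * x)) * e ((B : ℝ) / (x * q)) with hΩ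
  have hsum : ∑ n ∈ Ioc M (2 * M + 1), bw γ ψ H r s1 i1 n *
        (starRingEnd ℂ) (bw γ ψ H r s2 i2 n) =
      (γ i1 r s1 * (starRingEnd ℂ) (γ i2 r s2)) *
        ∑ n ∈ (Icc (M + 1) (2 * M + 1)).filter (fun n => Nat.Coprime n q),
          Ω n * kf (-B) (n : ℤ) q := by
    have hI : Ioc M (2 * M + 1) = Icc (M + 1) (2 * M + 1) := by
      ext x; rw [Finset.mem_Ioc, Finset.mem_Icc]; omega
    rw [hI, Finset.sum_filter, Finset.mul_sum]
    refine Finset.sum_congr rfl fun n hn => ?_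
    have hn0 : 0 < n := by rw [Finset.mem_Icc] at hn; omega
    unfold bw
    by_cases hcc : Nat.Coprime n q
    · obtain ⟨h1, h2⟩ := (hiff n).2 hcc
      have hkp := kf_prod n q (r * s1) (r * s2) t1 t2 hn0 hr1 hr2 hcc.symm (H i1) (H i2)
      have hrec := kf_recip B q n hq0 hn0 hcc.symm
      rw [conj_kf] at hrec
      rw [← hB, hrec] at hkp
      rw [if_pos h1, if_pos h2, if_pos hcc, hΩ]
      simp only [map_mul]
      calc _ = (γ i1 r s1 * (starRingEnd ℂ) (γ i2 r s2)) * (ψ i1 (((r * s1 : ℕ) : ℝ) * n) *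
            (starRingEnd ℂ) (ψ i2 (((r * s2 : ℕ) : ℝ) * n))) *
            (kf (H i1) ((r * s1 : ℕ) : ℤ) n *
              (starRingEnd ℂ) (kf (H i2) ((r * s2 : ℕ) : ℤ) n)) := by ring
        _ = _ := by rw [hkp]; ring
    · rw [if_neg hcc, mul_zero]
      by_cases h1 : Nat.Coprime (r * s1) n
      · have h2 : ¬ Nat.Coprime (r * s2) n := fun h2 => hcc ((hiff n).1 ⟨h1, h2⟩)
        rw [if_neg h2, map_zero, mul_zero]
      · rw [if_neg h1, zero_mul]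
  -- the weight
  have hxlow : ∀ x ∈ Set.Icc ((M + 1 : ℕ) : ℝ) ((2 * M + 1 : ℕ) : ℝ), (M : ℝ) ≤ x := by
    intro x hx
    have := hx.1
    push_cast at this
    linarith
  have hqR0 : (0 : ℝ) < q := by exact_mod_cast hq0
  have hBq : |(B : ℝ)| ≤ 2 * V * M * q := by
    have h1 : (B : ℝ) = (H i1 : ℝ) * t2 - (H i2 : ℝ) * t1 := by rw [hB]; push_cast; ring
    have h3 : (M : ℝ) * t2 ≤ q := by
      have a1 : M * t2 ≤ q := by
        rw [← hr1]; exact Nat.mul_le_mul_right _ hco1.1.le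
      exact_mod_cast a1
    have h4 : (M : ℝ) * t1 ≤ q := by
      have a1 : M * t1 ≤ q := by
        rw [← hr2]; exact Nat.mul_le_mul_right _ hco2.1.le
      exact_mod_cast a1
    rw [h1]
    refine (abs_sub _ _).trans ?_
    rw [abs_mul, abs_mul, Nat.abs_cast, Nat.abs_cast]
    calc |(H i1 : ℝ)| * (t2 : ℝ) + |(H i2 : ℝ)| * (t1 : ℝ)
        ≤ (V * (M : ℝ) ^ 2) * t2 + (V * (M : ℝ) ^ 2) * t1 := by gcongr
      _ = V * M * (M * t2 + M * t1) := by ring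
      _ ≤ V * M * (q + q) := by gcongr
      _ = _ := by ring
  have hΩ1 : ∀ x ∈ Set.Icc ((M + 1 : ℕ) : ℝ) ((2 * M + 1 : ℕ) : ℝ), ‖Ω x‖ ≤ 1 := by
    intro x hx
    rw [hΩ]
    simp only [norm_mul, RCLike.norm_conj, norm_e, mul_one]
    calc _ ≤ (1 : ℝ) * 1 := mul_le_mul (hψ1.bd _ (low_bd M _ x hco1.1 (hxlow x hx)))
          (hψ2.bd _ (low_bd M _ x hco2.1 (hxlow x hx))) (norm_nonneg _) zero_le_one
      _ = 1 := one_mul 1
  have hψlip : ∀ x ∈ Set.Icc ((M + 1 : ℕ) : ℝ) ((2 * M + 1 : ℕ) : ℝ),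
      ∀ x' ∈ Set.Icc ((M + 1 : ℕ) : ℝ) ((2 * M + 1 : ℕ) : ℝ), ∀ (j : ι) (m : ℕ), Wei M V (ψ j) → M < m →
      m ≤ 2 * M + 1 → ‖ψ j ((m : ℝ) * x) - ψ j ((m : ℝ) * x')‖ ≤ 3 * V / M * |x - x'| := by
    intro x hx x' hx' j m hψj hm hm'
    refine (hψj.lip _ _ (low_bd M m x hm (hxlow x hx))
      (low_bd M m x' hm (hxlow x' hx'))).trans ?_
    have h1 : (m : ℝ) * x - m * x' = m * (x - x') := by ring
    rw [h1, abs_mul, abs_of_nonneg (Nat.cast_nonneg m), div_le_iff₀ (by positivity)]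
    have h2 : (m : ℝ) ≤ 3 * M := by
      have : (m : ℝ) ≤ 2 * M + 1 := by exact_mod_cast hm'
      linarith
    calc V * ((m : ℝ) * |x - x'|) ≤ V * ((3 * M) * |x - x'|) := by gcongr
      _ = 3 * V / M * |x - x'| * M ^ 2 := by field_simp
  have helip : ∀ x ∈ Set.Icc ((M + 1 : ℕ) : ℝ) ((2 * M + 1 : ℕ) : ℝ),
      ∀ x' ∈ Set.Icc ((M + 1 : ℕ) : ℝ) ((2 * M + 1 : ℕ) : ℝ),
      ‖e ((B : ℝ) / (x * q)) - e ((B : ℝ) / (x' * q))‖ ≤ 14 * V / M * |x - x'| := by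
    intro x hx x' hx'
    have hxl := hxlow x hx
    have hxl' := hxlow x' hx'
    have hx0 : 0 < x := by linarith
    have hx0' : 0 < x' := by linarith
    refine (norm_e_sub_le _ _).trans ?_
    have h1 : (B : ℝ) / (x * q) - (B : ℝ) / (x' * q) = (B : ℝ) * (x' - x) / (x * x' * q) := by
      field_simp
    rw [h1, abs_div, abs_mul, abs_of_pos (by positivity : (0 : ℝ) < x * x' * q), abs_sub_comm x' x]
    have h2 : |(B : ℝ)| * |x - x'| / (x * x' * q) ≤ 2 * V / M * |x - x'| := by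
      rw [div_le_iff₀ (by positivity)]
      have h3 : (M : ℝ) * M ≤ x * x' := by gcongr
      calc |(B : ℝ)| * |x - x'| ≤ (2 * V * M * q) * |x - x'| := by gcongr
        _ = 2 * V / M * |x - x'| * ((M * M) * q) := by field_simp
        _ ≤ 2 * V / M * |x - x'| * (x * x' * q) := by gcongr
    calc 2 * Real.pi * (|(B : ℝ)| * |x - x'| / (x * x' * q))
        ≤ 2 * 3.5 * (2 * V / M * |x - x'|) := by
          gcongr
          have := Real.pi_lt_d2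
          linarith
      _ = 14 * V / M * |x - x'| := by ring
  have hΩ2 : ∀ x ∈ Set.Icc ((M + 1 : ℕ) : ℝ) ((2 * M + 1 : ℕ) : ℝ),
      ∀ x' ∈ Set.Icc ((M + 1 : ℕ) : ℝ) ((2 * M + 1 : ℕ) : ℝ),
      ‖Ω x - Ω x'‖ ≤ 20 * V / M * |x - x'| := by
    intro x hx x' hx'
    rw [hΩ]
    have b1 := hψ1.bd _ (low_bd M _ x hco1.1 (hxlow x hx))
    have b1' := hψ1.bd _ (low_bd M _ x' hco1.1 (hxlow x' hx'))
    have b2 := hψ2.bd _ (low_bd M _ x hco2.1 (hxlow x hx))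
    have b2' := hψ2.bd _ (low_bd M _ x' hco2.1 (hxlow x' hx'))
    have l1 := hψlip x hx x' hx' i1 (r * s1) hψ1 hco1.1 hco1.2
    have l2 := hψlip x hx x' hx' i2 (r * s2) hψ2 hco2.1 hco2.2
    have l3 := helip x hx x' hx'
    refine (lip3 _ _ _ _ _ _ (3 * V / M * |x - x'|) (3 * V / M * |x - x'|)
      (14 * V / M * |x - x'|) b1 ?_ ?_ ?_ b1' l1 ?_ l3).trans (le_of_eq (by ring))
    · rw [RCLike.norm_conj]; exact b2'
    · rw [RCLike.norm_conj]; exact b2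
    · rw [norm_e]
    · rw [← map_sub, RCLike.norm_conj]; exact l2
  have hmain := hW q (M + 1) (2 * M + 1) (-B) Ω (20 * V / M) hqsq (neg_ne_zero.2 hB0) (by omega)
    (by positivity) hΩ1 hΩ2
  have hgneg : Int.gcd (-B) (q : ℤ) = Int.gcd B q := Int.neg_gcd
  rw [hgneg] at hmain
  have hA : ((2 * M + 1 : ℕ) : ℝ) - ((M + 1 : ℕ) : ℝ) = M := by push_cast; ring
  rw [hA] at hmain
  rw [hsum, norm_mul, norm_mul, RCLike.norm_conj]
  have hcc : ‖γ i1 r s1‖ * ‖γ i2 r s2‖ ≤ 1 := by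
    calc _ ≤ (1 : ℝ) * 1 := mul_le_mul (hγ1 _ _ _) (hγ1 _ _ _) (norm_nonneg _) zero_le_one
      _ = 1 := one_mul 1
  refine (mul_le_mul hcc hmain (norm_nonneg _) zero_le_one).trans ?_
  rw [one_mul]
  -- numerical bounds
  have hrR : (0 : ℝ) < r := by exact_mod_cast hr0
  have hwR : (0 : ℝ) < w := by exact_mod_cast hw0
  have hqle : (q : ℝ) ≤ 6 * M * S := by
    have h1 : t2 ≤ s2 := Nat.le_of_dvd hs20 ⟨g, by rw [ht2]; ring⟩
    have h2 : q ≤ (2 * M + 1) * (2 * S) := by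
      rw [← hr1]; exact Nat.mul_le_mul hco1.2 (h1.trans hs2.2.le)
    have h3 : (q : ℝ) ≤ (2 * M + 1) * (2 * S) := by exact_mod_cast h2
    calc (q : ℝ) ≤ (2 * M + 1) * (2 * S) := h3
      _ ≤ (2 * M + M) * (2 * S) := by gcongr
      _ = 6 * M * S := by ring
  have hMS : (0 : ℝ) < (M : ℝ) * S := by positivity
  have hsqMS : 0 < Real.sqrt ((M : ℝ) * S) := Real.sqrt_pos.2 hMS
  have hsqq : Real.sqrt q ≤ 3 * Real.sqrt ((M : ℝ) * S) := by
    rw [← Real.sqrt_sq (by positivity : (0 : ℝ) ≤ 3 * Real.sqrt ((M : ℝ) * S))]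
    apply Real.sqrt_le_sqrt
    rw [mul_pow, Real.sq_sqrt hMS.le]
    calc (q : ℝ) ≤ 6 * (M * S) := by rw [← mul_assoc]; exact hqle
      _ ≤ 3 ^ 2 * (M * S) := by
        refine mul_le_mul_of_nonneg_right ?_ hMS.le
        norm_num
  set gr : ℕ := Int.gcd B r with hgr
  have hgq : (Int.gcd B q : ℝ) ≤ gr * w := by
    have := gcd_le B r w hr0 hw0
    rw [← hq] at this
    exact_mod_cast this
  have hgr1 : (1 : ℝ) ≤ gr := by
    have : 0 < gr := by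
      rw [hgr]; exact Int.gcd_pos_of_ne_zero_left _ hB0
    exact_mod_cast this
  have hrge : (M : ℝ) ≤ r * (2 * S) := by
    have h1 : M ≤ r * (2 * S) := hco1.1.le.trans (Nat.mul_le_mul_left _ hs1.2.le)
    exact_mod_cast h1
  have hsqg : ((M : ℝ) + 1) * Real.sqrt ((Int.gcd B q : ℝ) / q) ≤
      3 * Real.sqrt ((M : ℝ) * S) * Real.sqrt gr := by
    have h1 : ((M : ℝ) + 1) = Real.sqrt (((M : ℝ) + 1) ^ 2) := by
      rw [Real.sqrt_sq (by positivity)]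
    have h2 : (3 : ℝ) = Real.sqrt 9 := by
      rw [show (9 : ℝ) = 3 ^ 2 by norm_num, Real.sqrt_sq (by norm_num)]
    rw [h1, h2, ← Real.sqrt_mul (by positivity), ← Real.sqrt_mul (by positivity),
      ← Real.sqrt_mul (by positivity)]
    apply Real.sqrt_le_sqrt
    have hqe : (q : ℝ) = r * w := by rw [hq]; push_cast; ring
    have h3 : (Int.gcd B q : ℝ) / q ≤ gr / r := by
      rw [div_le_div_iff₀ hqR0 hrR, hqe]
      calc (Int.gcd B q : ℝ) * r ≤ (gr * w) * r := by gcongr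
        _ = gr * (r * w) := by ring
    have h4 : (gr : ℝ) / r ≤ gr * (2 * S / M) := by
      rw [div_le_iff₀ hrR]
      have : (1 : ℝ) ≤ 2 * S / M * r := by
        rw [div_mul_eq_mul_div, le_div_iff₀ hM0]
        linarith
      calc (gr : ℝ) = gr * 1 := by ring
        _ ≤ gr * (2 * S / M * r) := by gcongr
        _ = _ := by ring
    have h5 : ((M : ℝ) + 1) ^ 2 ≤ 4 * M ^ 2 := by
      calc ((M : ℝ) + 1) ^ 2 ≤ ((M : ℝ) + M) ^ 2 := by gcongr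
        _ = 4 * (M : ℝ) ^ 2 := by ring
    have h6 : (Int.gcd B q : ℝ) / q ≤ (gr : ℝ) * (2 * S / M) := h3.trans h4
    calc ((M : ℝ) + 1) ^ 2 * ((Int.gcd B q : ℝ) / q)
        ≤ (4 * (M : ℝ) ^ 2) * ((gr : ℝ) * (2 * S / M)) := by gcongr
      _ = 8 * ((M : ℝ) * S) * (gr : ℝ) := by field_simp; ring
      _ ≤ 9 * ((M : ℝ) * S) * (gr : ℝ) := by gcongr; norm_num
  have hqε : (q : ℝ) ^ ε ≤ (6 * M * S : ℝ) ^ ε := Real.rpow_le_rpow hqR0.le hqle hε.le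
  have hfac : 1 + 20 * V / M * (M : ℝ) ≤ 21 * V := by
    have h2 : 20 * V / M * (M : ℝ) = 20 * V := by field_simp
    linarith
  have hsgr : 1 ≤ Real.sqrt gr := by
    rw [← Real.sqrt_one]; exact Real.sqrt_le_sqrt hgr1
  have hlast : Real.sqrt q + ((M : ℝ) + 1) * Real.sqrt ((Int.gcd B q : ℝ) / q) ≤
      (6 * Real.sqrt (M * S)) * Real.sqrt gr := by
    have h1 : 3 * Real.sqrt ((M : ℝ) * S) ≤ 3 * Real.sqrt ((M : ℝ) * S) * Real.sqrt gr :=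
      le_mul_of_one_le_right (by positivity) hsgr
    calc _ ≤ 3 * Real.sqrt ((M : ℝ) * S) + 3 * Real.sqrt ((M : ℝ) * S) * Real.sqrt gr :=
          add_le_add hsqq hsqg
      _ ≤ 3 * Real.sqrt ((M : ℝ) * S) * Real.sqrt gr +
          3 * Real.sqrt ((M : ℝ) * S) * Real.sqrt gr := by gcongr
      _ = _ := by ring
  calc C * (q : ℝ) ^ ε * (1 + 20 * V / M * (M : ℝ)) *
        (Real.sqrt q + ((M : ℝ) + 1) * Real.sqrt ((Int.gcd B q : ℝ) / q))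
      ≤ C * (6 * M * S : ℝ) ^ ε * (21 * V) * ((6 * Real.sqrt (M * S)) * Real.sqrt gr) := by
        gcongr
    _ = _ := by ring


end Pool.Agent.H82.LD
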