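import Pool.Agent.H82.LD.W1

/-!
Trilinear forms with Kloosterman fractions, several residues inside: summing up.
-/

set_option autoImplicit false

namespace Pool.Agent.H82.LD

open Finset
open Pool.Agent.H442R2.KF
open Pool.Agent.H442R2.FX
open Pool.Agent.H442R2.FX.TaskWF (cauchy_n)
open Pool.Agent.H442R2.KF.TaskA
open Pool.Agent.H262R4.FR.TW2 (W1c)

theorem sum_quad' {ι : Type} (A : Finset ℕ) (B : Finset ι) (f : ℕ × ι → ℕ × ι → ℝ) :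
    ∑ x ∈ A ×ˢ B, ∑ y ∈ A ×ˢ B, f x y =
      ∑ w ∈ (A ×ˢ A) ×ˢ (B ×ˢ B), f (w.1.1, w.2.1) (w.1.2, w.2.2) := by
  rw [Finset.sum_product, Finset.sum_product, Finset.sum_product]
  refine Finset.sum_congr rfl fun l1 _ => ?_
  simp only [Finset.sum_product]
  rw [Finset.sum_comm]

theorem total {ι : Type} (ε C C2 : ℝ) (hε : 0 < ε) (hC : 0 < C) (hC2 : 0 < C2) (hW : W1c ε C)
    (hτ : ∀ n : ℕ, 1 ≤ n → (n.divisors.card : ℝ) ≤ C2 * (n : ℝ) ^ ε)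
    (hgcd : ∀ (B : ℤ) (K : ℕ), B ≠ 0 →
      ∑ k ∈ Icc 1 K, Real.sqrt (Int.gcd B k) ≤ (K : ℝ) * (B.natAbs.divisors.card : ℝ))
    (M S R : ℕ) (hM : 1 ≤ M) (hS : 1 ≤ S) (V : ℝ) (hV : 1 ≤ V)
    (I : Finset ι) (ψ : ι → ℝ → ℂ) (hψ : ∀ i ∈ I, Wei M V (ψ i)) (H : ι → ℤ)
    (hH : ∀ i ∈ I, |(H i : ℝ)| ≤ V * (M : ℝ) ^ 2) (γ : ι → ℕ → ℕ → ℂ)
    (hγ1 : ∀ i r s, ‖γ i r s‖ ≤ 1)
    (hγ2 : ∀ i r s, γ i r s ≠ 0 → Squarefree (r * s) ∧ r * s ∈ Ioc M (2 * M + 1)) (K : ℝ)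
    (hK : ((((Ico S (2 * S) ×ˢ Ico S (2 * S)) ×ˢ (I ×ˢ I)).filter
      (fun w : (ℕ × ℕ) × (ι × ι) => H w.2.1 * (w.1.2 : ℤ) = H w.2.2 * (w.1.1 : ℤ))).card : ℝ) ≤ K) :
    ∑ r ∈ Icc 1 R, ∑ x ∈ Ico S (2 * S) ×ˢ I, ∑ y ∈ Ico S (2 * S) ×ˢ I,
      ‖∑ n ∈ Ioc M (2 * M + 1), bw γ ψ H r x.1 x.2 n *
        (starRingEnd ℂ) (bw γ ψ H r y.1 y.2 n)‖ ≤
      R * (((M : ℝ) + 1) * K) +
      (C * (6 * M * S : ℝ) ^ ε * (21 * V) * (6 * Real.sqrt (M * S))) *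
        (R * (C2 * (V * (M : ℝ) ^ 2 * (4 * S)) ^ ε)) * (S ^ 2 * (I.card : ℝ) ^ 2) := by
  classical
  have hM0 : (0 : ℝ) < M := by exact_mod_cast hM
  have hS0 : (0 : ℝ) < S := by exact_mod_cast hS
  have hV0 : 0 < V := by linarith
  set U : ℝ := C * (6 * M * S : ℝ) ^ ε * (21 * V) * (6 * Real.sqrt (M * S)) with hU
  have hU0 : 0 ≤ U := by positivity
  set D : ℝ := C2 * (V * (M : ℝ) ^ 2 * (4 * S)) ^ ε with hD
  have hD0 : 0 ≤ D := by positivity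
  set Q : Finset ((ℕ × ℕ) × (ι × ι)) :=
    (Ico S (2 * S) ×ˢ Ico S (2 * S)) ×ˢ (I ×ˢ I) with hQ
  have hswap : ∑ r ∈ Icc 1 R, ∑ x ∈ Ico S (2 * S) ×ˢ I,
      ∑ y ∈ Ico S (2 * S) ×ˢ I,
      ‖∑ n ∈ Ioc M (2 * M + 1), bw γ ψ H r x.1 x.2 n *
        (starRingEnd ℂ) (bw γ ψ H r y.1 y.2 n)‖ =
      ∑ w ∈ Q, ∑ r ∈ Icc 1 R,
      ‖∑ n ∈ Ioc M (2 * M + 1), bw γ ψ H r w.1.1 w.2.1 n *
        (starRingEnd ℂ) (bw γ ψ H r w.1.2 w.2.2 n)‖ := by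
    rw [Finset.sum_comm (s := Q)]
    refine Finset.sum_congr rfl fun r _ => ?_
    rw [sum_quad' (Ico S (2 * S)) I (fun x y => ‖∑ n ∈ Ioc M (2 * M + 1),
      bw γ ψ H r x.1 x.2 n * (starRingEnd ℂ) (bw γ ψ H r y.1 y.2 n)‖)]
  have hk1 : ∀ w ∈ Q, ∑ r ∈ Icc 1 R,
      ‖∑ n ∈ Ioc M (2 * M + 1), bw γ ψ H r w.1.1 w.2.1 n *
        (starRingEnd ℂ) (bw γ ψ H r w.1.2 w.2.2 n)‖ ≤
      (R : ℝ) * (if H w.2.1 * (w.1.2 : ℤ) = H w.2.2 * (w.1.1 : ℤ) then ((M : ℝ) + 1) else 0) +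
        U * (R * D) := by
    rintro ⟨⟨s1, s2⟩, ⟨i1, i2⟩⟩ hw
    simp only [hQ, Finset.mem_product] at hw
    obtain ⟨⟨hs1, hs2⟩, hi1, hi2⟩ := hw
    simp only
    by_cases heq : H i1 * (s2 : ℤ) = H i2 * (s1 : ℤ)
    · rw [if_pos heq]
      have h1 : ∀ r ∈ Icc 1 R, ‖∑ n ∈ Ioc M (2 * M + 1), bw γ ψ H r s1 i1 n *
          (starRingEnd ℂ) (bw γ ψ H r s2 i2 n)‖ ≤ (M : ℝ) + 1 := by
        intro r _
        have h2 : ∀ n ∈ Ioc M (2 * M + 1), ‖bw γ ψ H r s1 i1 n *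
            (starRingEnd ℂ) (bw γ ψ H r s2 i2 n)‖ ≤ 1 := by
          intro n hn
          rw [Finset.mem_Ioc] at hn
          rw [norm_mul, RCLike.norm_conj]
          calc _ ≤ (1 : ℝ) * 1 := mul_le_mul
                (norm_bw_le M V γ ψ i1 (hψ i1 hi1) (hγ1 i1) (hγ2 i1) H r s1 n hn.1)
                (norm_bw_le M V γ ψ i2 (hψ i2 hi2) (hγ1 i2) (hγ2 i2) H r s2 n hn.1)
                (norm_nonneg _) zero_le_one
            _ = 1 := one_mul 1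
        refine (norm_sum_le _ _).trans ((Finset.sum_le_sum h2).trans (le_of_eq ?_))
        rw [Finset.sum_const, Nat.card_Ioc, nsmul_eq_mul, mul_one]
        have : 2 * M + 1 - M = M + 1 := by omega
        rw [this]
        push_cast
        ring
      refine (Finset.sum_le_sum h1).trans ?_
      rw [Finset.sum_const, Nat.card_Icc, nsmul_eq_mul]
      have h3 : 0 ≤ U * (R * D) := by positivity
      have h4 : R + 1 - 1 = R := by omega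
      rw [h4]
      linarith
    · rw [if_neg heq, mul_zero, zero_add]
      have hB0 := Bh_ne (H i1) (H i2) s1 s2 (by rw [Finset.mem_Ico] at hs1; omega) heq
      have h1 : ∀ r ∈ Icc 1 R, ‖∑ n ∈ Ioc M (2 * M + 1), bw γ ψ H r s1 i1 n *
          (starRingEnd ℂ) (bw γ ψ H r s2 i2 n)‖ ≤
          U * Real.sqrt (Int.gcd (Bh (H i1) (H i2) s1 s2) r) := fun r _ =>
        inner ε C hε hC hW M S hM hS V hV ψ H γ i1 i2 (hψ i1 hi1) (hψ i2 hi2) (hH i1 hi1)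
          (hH i2 hi2) hγ1 hγ2 r s1 s2 hs1 hs2 heq
      refine (Finset.sum_le_sum h1).trans ?_
      rw [← Finset.mul_sum]
      refine mul_le_mul_of_nonneg_left ?_ hU0
      refine (hgcd _ R hB0).trans ?_
      refine mul_le_mul_of_nonneg_left ?_ (Nat.cast_nonneg _)
      refine (hτ _ (Int.natAbs_pos.2 hB0)).trans ?_
      rw [hD]
      refine mul_le_mul_of_nonneg_left ?_ hC2.le
      refine Real.rpow_le_rpow (Nat.cast_nonneg _) ?_ hε.le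
      rw [Finset.mem_Ico] at hs1 hs2
      exact Bh_abs_le (H i1) (H i2) s1 s2 S _ hs1.2.le hs2.2.le (hH i1 hi1) (hH i2 hi2)
  rw [hswap]
  refine (Finset.sum_le_sum hk1).trans ?_
  rw [Finset.sum_add_distrib]
  have hcardQ : (Q.card : ℝ) = S ^ 2 * (I.card : ℝ) ^ 2 := by
    have h1 : (Ico S (2 * S)).card = S := by rw [Nat.card_Ico]; omega
    rw [hQ, Finset.card_product, Finset.card_product, Finset.card_product, h1]
    push_cast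
    ring
  have hterm1 : ∑ w ∈ Q, (R : ℝ) *
      (if H w.2.1 * (w.1.2 : ℤ) = H w.2.2 * (w.1.1 : ℤ) then ((M : ℝ) + 1) else 0) ≤
      R * (((M : ℝ) + 1) * K) := by
    rw [← Finset.mul_sum, ← Finset.sum_filter, Finset.sum_const, nsmul_eq_mul]
    calc (R : ℝ) * (((Q.filter (fun w => H w.2.1 * (w.1.2 : ℤ) = H w.2.2 * (w.1.1 : ℤ))).card : ℝ) *
          ((M : ℝ) + 1))
        ≤ R * (K * ((M : ℝ) + 1)) := by gcongr
      _ = _ := by ring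
  have hterm2 : ∑ _w ∈ Q, U * (R * D) = U * (R * D) * (S ^ 2 * (I.card : ℝ) ^ 2) := by
    rw [Finset.sum_const, nsmul_eq_mul, hcardQ]; ring
  rw [hterm2]
  linarith

/-- trilinear forms with Kloosterman fractions, one factorable variable, several residues inside -/
theorem WG (ε : ℝ) (hε : 0 < ε) : ∃ C : ℝ, 0 < C ∧ ∀ (ι : Type) (M S : ℕ), 1 ≤ M → 1 ≤ S →
    ∀ V : ℝ, 1 ≤ V → ∀ (I : Finset ι) (ψ : ι → ℝ → ℂ), (∀ i ∈ I, Wei M V (ψ i)) →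
    ∀ H : ι → ℤ, (∀ i ∈ I, |(H i : ℝ)| ≤ V * (M : ℝ) ^ 2) →
    ∀ (γ : ι → ℕ → ℕ → ℂ) (β : ℕ → ℂ), (∀ i r s, ‖γ i r s‖ ≤ 1) → (∀ n, ‖β n‖ ≤ 1) →
    (∀ i r s, γ i r s ≠ 0 → Squarefree (r * s) ∧ r * s ∈ Ioc M (2 * M + 1)) → ∀ K : ℝ,
    ((((Ico S (2 * S) ×ˢ Ico S (2 * S)) ×ˢ (I ×ˢ I)).filter
      (fun w : (ℕ × ℕ) × (ι × ι) => H w.2.1 * (w.1.2 : ℤ) = H w.2.2 * (w.1.1 : ℤ))).card : ℝ) ≤ K →
    ‖∑ s ∈ Ico S (2 * S), ∑ r ∈ Icc 1 (2 * M + 1),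
      ∑ n ∈ (Ioc M (2 * M + 1)).filter (fun n => Nat.Coprime (r * s) n),
        ∑ i ∈ I, γ i r s * β n *
          (ψ i (((r * s : ℕ) : ℝ) * n) * kf (H i) ((r * s : ℕ) : ℤ) n)‖ ^ 2 ≤
      C * (V * M) ^ ε * V * ((M : ℝ) ^ 4 * K / S ^ 2 +
        (M : ℝ) ^ (7 / 2 : ℝ) * (I.card : ℝ) ^ 2 * (S : ℝ) ^ (1 / 2 : ℝ)) := by
  classical
  obtain ⟨ε1, hε1⟩ : ∃ ε1 : ℝ, ε1 = ε / 6 := ⟨_, rfl⟩
  have hε1p : 0 < ε1 := by rw [hε1]; positivity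
  have hε5 : ε = 6 * ε1 := by rw [hε1]; ring
  obtain ⟨C1, hC1, hW⟩ := Pool.Agent.H262R4.FR.t_W1 ε1 hε1p
  obtain ⟨C2, hC2, hτ⟩ := Pool.Agent.H510R2.divisor_bound ε1 hε1p
  obtain ⟨-, hgcd, -⟩ := Pool.Agent.H262R4.FR.t_W3
  have hCC : 0 < 36 + 2268 * (C1 * (18 : ℝ) ^ ε1) * (C2 * (12 : ℝ) ^ ε1) := by positivity
  refine ⟨36 + 2268 * (C1 * (18 : ℝ) ^ ε1) * (C2 * (12 : ℝ) ^ ε1), hCC, ?_⟩
  intro ι M S hM hS V hV I ψ hψ H hH γ β hγ1 hβ hγ2 K hK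
  have hK0 : 0 ≤ K := (Nat.cast_nonneg _).trans hK
  have hM1 : (1 : ℝ) ≤ M := by exact_mod_cast hM
  have hS1 : (1 : ℝ) ≤ S := by exact_mod_cast hS
  have hM0 : (0 : ℝ) < M := by linarith
  have hS0 : (0 : ℝ) < S := by linarith
  have hV0 : (0 : ℝ) < V := by linarith
  obtain ⟨R, hR⟩ : ∃ R : ℕ, R = (2 * M + 1) / S := ⟨_, rfl⟩
  -- rewriting
  have hre : ∑ s ∈ Ico S (2 * S), ∑ r ∈ Icc 1 (2 * M + 1),
      ∑ n ∈ (Ioc M (2 * M + 1)).filter (fun n => Nat.Coprime (r * s) n),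
        ∑ i ∈ I, γ i r s * β n * (ψ i (((r * s : ℕ) : ℝ) * n) * kf (H i) ((r * s : ℕ) : ℤ) n) =
      ∑ n ∈ Ioc M (2 * M + 1), ∑ r ∈ Icc 1 R, β n *
        ∑ x ∈ Ico S (2 * S) ×ˢ I, bw γ ψ H r x.1 x.2 n := by
    have h1 : ∀ s ∈ Ico S (2 * S), ∑ r ∈ Icc 1 (2 * M + 1),
        ∑ n ∈ (Ioc M (2 * M + 1)).filter (fun n => Nat.Coprime (r * s) n),
          ∑ i ∈ I, γ i r s * β n *
            (ψ i (((r * s : ℕ) : ℝ) * n) * kf (H i) ((r * s : ℕ) : ℤ) n) =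
        ∑ r ∈ Icc 1 R, ∑ n ∈ Ioc M (2 * M + 1), β n * ∑ i ∈ I, bw γ ψ H r s i n := by
      intro s hs
      rw [Finset.mem_Ico] at hs
      have hsub : Icc 1 R ⊆ Icc 1 (2 * M + 1) := by
        intro r hr
        rw [Finset.mem_Icc] at hr ⊢
        exact ⟨hr.1, hr.2.trans (by rw [hR]; exact Nat.div_le_self _ _)⟩
      rw [← Finset.sum_subset hsub]
      · refine Finset.sum_congr rfl fun r _ => ?_
        rw [Finset.sum_filter]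
        refine Finset.sum_congr rfl fun n _ => ?_
        unfold bw
        by_cases h : Nat.Coprime (r * s) n
        · simp only [if_pos h]
          rw [Finset.mul_sum]
          refine Finset.sum_congr rfl fun j _ => ?_
          ring
        · simp [if_neg h]
      · intro r hr hr'
        rw [Finset.mem_Icc] at hr hr'
        have h2 : ∀ i, γ i r s = 0 := by
          intro i
          by_contra h3
          have h4 := (Finset.mem_Ioc.1 (hγ2 i r s h3).2).2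
          have h5 : r ≤ R := by
            rw [hR, Nat.le_div_iff_mul_le (by omega)]
            exact (Nat.mul_le_mul_left r hs.1).trans h4
          exact hr' ⟨hr.1, h5⟩
        refine Finset.sum_eq_zero fun n _ => Finset.sum_eq_zero fun i _ => ?_
        rw [h2, zero_mul, zero_mul]
    rw [Finset.sum_congr rfl h1, Finset.sum_comm]
    have h2 : ∀ r ∈ Icc 1 R, ∑ s ∈ Ico S (2 * S), ∑ n ∈ Ioc M (2 * M + 1),
        β n * ∑ i ∈ I, bw γ ψ H r s i n = ∑ n ∈ Ioc M (2 * M + 1), β n *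
        ∑ x ∈ Ico S (2 * S) ×ˢ I, bw γ ψ H r x.1 x.2 n := by
      intro r _
      rw [Finset.sum_comm]
      refine Finset.sum_congr rfl fun n _ => ?_
      rw [Finset.sum_product, Finset.mul_sum]
    rw [Finset.sum_congr rfl h2, Finset.sum_comm]
  rw [hre]
  by_cases hSM : 2 * M + 1 < S
  · have hR0 : R = 0 := by rw [hR]; exact Nat.div_eq_of_lt hSM
    rw [hR0]
    have : Icc 1 0 = (∅ : Finset ℕ) := Finset.Icc_eq_empty (by omega)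
    rw [this, Finset.sum_eq_zero (fun n _ => Finset.sum_empty), norm_zero,
      zero_pow two_ne_zero]
    refine mul_nonneg (mul_nonneg (mul_nonneg hCC.le ?_) hV0.le) (add_nonneg ?_ ?_)
    · exact Real.rpow_nonneg (mul_nonneg hV0.le hM0.le) _
    · exact div_nonneg (mul_nonneg (pow_nonneg hM0.le _) hK0) (sq_nonneg _)
    · exact mul_nonneg (mul_nonneg (Real.rpow_nonneg hM0.le _) (sq_nonneg _))
        (Real.rpow_nonneg hS0.le _)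
  rw [not_lt] at hSM
  refine (cauchy_n (Ioc M (2 * M + 1)) (Icc 1 R) β hβ
    (fun n r => ∑ x ∈ Ico S (2 * S) ×ˢ I, bw γ ψ H r x.1 x.2 n)).trans ?_
  have hcN : ((Ioc M (2 * M + 1)).card : ℝ) = (M : ℝ) + 1 := by
    rw [Nat.card_Ioc]
    have : 2 * M + 1 - M = M + 1 := by omega
    rw [this]; push_cast; ring
  have hcR : ((Icc 1 R).card : ℝ) = R := by rw [Nat.card_Icc]; congr 1
  rw [hcN, hcR]
  have hexp : ∑ r ∈ Icc 1 R, ∑ n ∈ Ioc M (2 * M + 1),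
      ‖∑ x ∈ Ico S (2 * S) ×ˢ I, bw γ ψ H r x.1 x.2 n‖ ^ 2 ≤
      ∑ r ∈ Icc 1 R, ∑ x ∈ Ico S (2 * S) ×ˢ I, ∑ y ∈ Ico S (2 * S) ×ˢ I,
      ‖∑ n ∈ Ioc M (2 * M + 1), bw γ ψ H r x.1 x.2 n *
        (starRingEnd ℂ) (bw γ ψ H r y.1 y.2 n)‖ :=
    Finset.sum_le_sum fun r _ => Pool.Agent.H262R4.FR.TW2.expand_sq (Ico S (2 * S) ×ˢ I)
      (Ioc M (2 * M + 1)) (fun x n => bw γ ψ H r x.1 x.2 n)
  have htot := total ε1 C1 C2 hε1p hC1 hC2 hW hτ hgcd M S R hM hS V hV I ψ hψ H hH γ hγ1 hγ2 K hK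
  -- the parameter
  have hS3 : (S : ℝ) ≤ 3 * M := by
    have : (S : ℝ) ≤ 2 * M + 1 := by exact_mod_cast hSM
    linarith
  have hVM1 : 1 ≤ V * M := one_le_mul_of_one_le_of_one_le hV hM1
  have hVM0 : 0 < V * M := by linarith
  have hMV : (M : ℝ) ≤ V * M := le_mul_of_one_le_left hM0.le hV
  have hVV3 : V * (M : ℝ) ^ 3 ≤ (V * M) ^ 3 := by
    have h1 : (V * M) ^ 3 = V ^ 3 * (M : ℝ) ^ 3 := by ring
    rw [h1]
    exact mul_le_mul_of_nonneg_right (le_self_pow₀ hV (by norm_num)) (by positivity)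
  set P : ℝ := (V * M) ^ ε1 with hP
  have hP1 : 1 ≤ P := Real.one_le_rpow hVM1 hε1p.le
  have hP0 : 0 < P := by linarith
  have hpow : ∀ m : ℕ, ((V * M) ^ m) ^ ε1 = P ^ m := by
    intro m
    rw [hP, ← Real.rpow_natCast, ← Real.rpow_natCast, ← Real.rpow_mul hVM0.le,
      ← Real.rpow_mul hVM0.le, mul_comm ε1]
  have hPε : (V * M) ^ ε = P ^ 6 := by
    rw [hP, hε5, ← Real.rpow_natCast, ← Real.rpow_mul hVM0.le]
    congr 1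
    push_cast; ring
  have hu1 : (6 * M * S : ℝ) ^ ε1 ≤ (18 : ℝ) ^ ε1 * P ^ 2 := by
    rw [← hpow 2, ← Real.mul_rpow (by norm_num) (by positivity)]
    refine Real.rpow_le_rpow (by positivity) ?_ hε1p.le
    calc (6 * M * S : ℝ) ≤ 6 * M * (3 * M) := by gcongr
      _ = 18 * (M : ℝ) ^ 2 := by ring
      _ ≤ 18 * (V * M) ^ 2 := by gcongr
  have hu2 : (V * (M : ℝ) ^ 2 * (4 * S)) ^ ε1 ≤ (12 : ℝ) ^ ε1 * P ^ 3 := by
    rw [← hpow 3, ← Real.mul_rpow (by norm_num) (by positivity)]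
    refine Real.rpow_le_rpow (by positivity) ?_ hε1p.le
    calc V * (M : ℝ) ^ 2 * (4 * S) ≤ (V * (M : ℝ) ^ 2) * (4 * (3 * M)) := by gcongr
      _ = 12 * (V * (M : ℝ) ^ 3) := by ring
      _ ≤ 12 * (V * M) ^ 3 := by gcongr
  have hRle : (R : ℝ) ≤ 3 * M / S := by
    have h1 : ((2 * M + 1) / S : ℕ) ≤ (((2 * M + 1 : ℕ) : ℝ) / S : ℝ) := Nat.cast_div_le
    rw [hR]
    refine h1.trans ?_
    push_cast
    gcongr
    linarith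
  have hM2 : (M : ℝ) + 1 ≤ 2 * M := by linarith
  have hR0 : (0 : ℝ) ≤ R := Nat.cast_nonneg _
  obtain ⟨a, ha⟩ : ∃ a : ℝ, a = Real.sqrt M := ⟨_, rfl⟩
  obtain ⟨b, hb⟩ : ∃ b : ℝ, b = Real.sqrt S := ⟨_, rfl⟩
  have ha0 : 0 < a := by rw [ha]; exact Real.sqrt_pos.2 hM0
  have hb0 : 0 < b := by rw [hb]; exact Real.sqrt_pos.2 hS0
  have haM : a ^ 2 = M := by rw [ha]; exact Real.sq_sqrt hM0.le
  have hbS : b ^ 2 = S := by rw [hb]; exact Real.sq_sqrt hS0.le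
  have hsq : Real.sqrt (M * S) = a * b := by rw [Real.sqrt_mul hM0.le, ha, hb]
  have hM72 : (M : ℝ) ^ (7 / 2 : ℝ) = a ^ 7 := by
    rw [← haM, ← Real.rpow_natCast, ← Real.rpow_natCast, ← Real.rpow_mul ha0.le]
    norm_num
  have hS12 : (S : ℝ) ^ (1 / 2 : ℝ) = b := by rw [hb, Real.sqrt_eq_rpow]
  rw [hPε, hM72, hS12]
  rw [hsq] at htot
  obtain ⟨G1, hG1⟩ : ∃ x : ℝ, x = C1 * (18 : ℝ) ^ ε1 := ⟨_, rfl⟩
  obtain ⟨G2, hG2⟩ : ∃ x : ℝ, x = C2 * (12 : ℝ) ^ ε1 := ⟨_, rfl⟩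
  obtain ⟨J, hJ⟩ : ∃ J : ℝ, J = (I.card : ℝ) := ⟨_, rfl⟩
  have hJ0 : 0 ≤ J := by rw [hJ]; exact Nat.cast_nonneg _
  have hG10 : 0 < G1 := by rw [hG1]; positivity
  have hG20 : 0 < G2 := by rw [hG2]; positivity
  rw [← hG1, ← hG2, ← hJ]
  rw [← hJ] at htot
  have b2 : C1 * (6 * M * S : ℝ) ^ ε1 ≤ G1 * P ^ 2 := by
    calc C1 * (6 * M * S : ℝ) ^ ε1 ≤ C1 * ((18 : ℝ) ^ ε1 * P ^ 2) := by gcongr
      _ = _ := by rw [hG1]; ring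
  have b3 : C2 * (V * (M : ℝ) ^ 2 * (4 * S)) ^ ε1 ≤ G2 * P ^ 3 := by
    calc C2 * (V * (M : ℝ) ^ 2 * (4 * S)) ^ ε1 ≤ C2 * ((12 : ℝ) ^ ε1 * P ^ 3) := by gcongr
      _ = _ := by rw [hG2]; ring
  have hP06 : 1 ≤ P ^ 6 := one_le_pow₀ hP1
  have hP56 : P ^ 5 ≤ P ^ 6 := pow_le_pow_right₀ hP1 (by norm_num)
  have htot2 : ∑ r ∈ Icc 1 R, ∑ n ∈ Ioc M (2 * M + 1),
      ‖∑ x ∈ Ico S (2 * S) ×ˢ I, bw γ ψ H r x.1 x.2 n‖ ^ 2 ≤
      (3 * M / S) * ((2 * M) * K) +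
      ((G1 * P ^ 2) * (21 * V) * (6 * (a * b))) * ((3 * M / S) * (G2 * P ^ 3)) *
        (S ^ 2 * J ^ 2) := by
    refine hexp.trans (htot.trans ?_)
    gcongr
  calc ((M : ℝ) + 1) * R * ∑ r ∈ Icc 1 R, ∑ n ∈ Ioc M (2 * M + 1),
      ‖∑ x ∈ Ico S (2 * S) ×ˢ I, bw γ ψ H r x.1 x.2 n‖ ^ 2
      ≤ (2 * M) * (3 * M / S) * ((3 * M / S) * ((2 * M) * K) +
      ((G1 * P ^ 2) * (21 * V) * (6 * (a * b))) * ((3 * M / S) * (G2 * P ^ 3)) *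
        (S ^ 2 * J ^ 2)) := by
        gcongr
    _ = 36 * 1 * ((M : ℝ) ^ 4 * K / S ^ 2) +
        2268 * G1 * G2 * (P ^ 5 * V) * (a ^ 7 * J ^ 2 * b) := by
        rw [← haM, ← hbS]
        field_simp
        ring
    _ ≤ 36 * (P ^ 6 * V) * ((M : ℝ) ^ 4 * K / S ^ 2) +
        2268 * G1 * G2 * (P ^ 6 * V) * (a ^ 7 * J ^ 2 * b) := by
        have c1 : 1 ≤ P ^ 6 * V := one_le_mul_of_one_le_of_one_le hP06 hV
        gcongr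
    _ ≤ _ := by
        have d1 : 0 ≤ (M : ℝ) ^ 4 * K / S ^ 2 := by positivity
        have d2 : 0 ≤ a ^ 7 * J ^ 2 * b := by positivity
        have d3 : 0 ≤ P ^ 6 * V := by positivity
        have d4 : (36 + 2268 * G1 * G2) * P ^ 6 * V *
            ((M : ℝ) ^ 4 * K / S ^ 2 + a ^ 7 * J ^ 2 * b) -
            (36 * (P ^ 6 * V) * ((M : ℝ) ^ 4 * K / S ^ 2) +
              2268 * G1 * G2 * (P ^ 6 * V) * (a ^ 7 * J ^ 2 * b)) =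
            36 * (P ^ 6 * V) * (a ^ 7 * J ^ 2 * b) +
            2268 * G1 * G2 * (P ^ 6 * V) * ((M : ℝ) ^ 4 * K / S ^ 2) := by ring
        have d5 : 0 ≤ 36 * (P ^ 6 * V) * (a ^ 7 * J ^ 2 * b) +
            2268 * G1 * G2 * (P ^ 6 * V) * ((M : ℝ) ^ 4 * K / S ^ 2) := by positivity
        linarith

end Pool.Agent.H82.LD
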