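import Pool.Agent.H82.LD.W2

/-!
Trilinear forms with Kloosterman fractions, several residues inside: the diagonal.
-/

set_option autoImplicit false

namespace Pool.Agent.H82.LD

open Finset
open Pool.Agent.H442R2.KF
open Pool.Agent.H442R2.FX

/-- the diagonal: a nonzero product has few factorisations -/
theorem diag_count (ε C2 : ℝ) (hε : 0 < ε) (hC2 : 0 < C2)
    (hτ : ∀ n : ℕ, 1 ≤ n → (n.divisors.card : ℝ) ≤ C2 * (n : ℝ) ^ ε)
    (S J : ℕ) (hS : 1 ≤ S) (A : Finset ℕ) (k : ℕ → ℤ) (hk0 : ∀ a ∈ A, k a ≠ 0)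
    (hinj : Set.InjOn k A) (W : ℝ) (hW : ∀ a ∈ A, |(k a : ℝ)| * J ≤ W) :
    ((((Ico S (2 * S) ×ˢ Ico S (2 * S)) ×ˢ ((A ×ˢ Icc 1 J) ×ˢ (A ×ˢ Icc 1 J))).filter
      (fun w : (ℕ × ℕ) × ((ℕ × ℕ) × (ℕ × ℕ)) =>
        ((w.2.1.2 : ℤ) * k w.2.1.1) * (w.1.2 : ℤ) =
          ((w.2.2.2 : ℤ) * k w.2.2.1) * (w.1.1 : ℤ))).card : ℝ) ≤
      (C2 * (W * (2 * S)) ^ ε) ^ 2 * (S * ((A.card : ℝ) * J)) := by
  classical
  rcases A.eq_empty_or_nonempty with hA | hA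
  · subst hA
    simp
  obtain ⟨a0, ha0⟩ := hA
  have hW0 : 0 ≤ W := (by positivity : (0 : ℝ) ≤ |(k a0 : ℝ)| * J).trans (hW a0 ha0)
  set F := (((Ico S (2 * S) ×ˢ Ico S (2 * S)) ×ˢ ((A ×ˢ Icc 1 J) ×ˢ (A ×ˢ Icc 1 J))).filter
      (fun w : (ℕ × ℕ) × ((ℕ × ℕ) × (ℕ × ℕ)) =>
        ((w.2.1.2 : ℤ) * k w.2.1.1) * (w.1.2 : ℤ) =
          ((w.2.2.2 : ℤ) * k w.2.2.1) * (w.1.1 : ℤ))) with hF
  set f : (ℕ × ℕ) × ((ℕ × ℕ) × (ℕ × ℕ)) → ℕ × (ℕ × ℕ) := fun w => (w.1.2, w.2.1) with hf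
  set E : ℝ := C2 * (W * (2 * S)) ^ ε with hE
  have hE0 : 0 ≤ E := by positivity
  -- the fibres
  have hfib : ∀ b ∈ F.image f, ((F.filter (fun w => f w = b)).card : ℝ) ≤ E ^ 2 := by
    intro b hb
    rw [Finset.mem_image] at hb
    obtain ⟨w0, hw0, rfl⟩ := hb
    simp only [hF, Finset.mem_filter, Finset.mem_product, Finset.mem_Ico, Finset.mem_Icc] at hw0
    obtain ⟨⟨⟨⟨-, -⟩, hs2, hs2'⟩, ⟨ha1, hj1, hj1'⟩, -⟩, -⟩ := hw0
    obtain ⟨m, hm⟩ : ∃ m : ℤ, m = ((w0.2.1.2 : ℤ) * k w0.2.1.1) * (w0.1.2 : ℤ) := ⟨_, rfl⟩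
    have hk := hk0 _ ha1
    have hm0 : m ≠ 0 := by
      rw [hm]
      refine mul_ne_zero (mul_ne_zero ?_ hk) ?_
      · exact_mod_cast (by omega : w0.2.1.2 ≠ 0)
      · exact_mod_cast (by omega : w0.1.2 ≠ 0)
    have hmE : ((m.natAbs.divisors.card : ℕ) : ℝ) ≤ E := by
      refine (hτ _ (Int.natAbs_pos.2 hm0)).trans ?_
      rw [hE]
      refine mul_le_mul_of_nonneg_left ?_ hC2.le
      refine Real.rpow_le_rpow (Nat.cast_nonneg _) ?_ hε.le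
      have h1 : ((m.natAbs : ℕ) : ℝ) = |(m : ℝ)| := by rw [Nat.cast_natAbs, Int.cast_abs]
      rw [h1, hm]
      push_cast
      rw [abs_mul, abs_mul, Nat.abs_cast, Nat.abs_cast]
      have h2 : ((w0.2.1.2 : ℕ) : ℝ) ≤ J := by exact_mod_cast hj1'
      have h3 : ((w0.1.2 : ℕ) : ℝ) ≤ 2 * S := by exact_mod_cast hs2'.le
      calc ((w0.2.1.2 : ℕ) : ℝ) * |(k w0.2.1.1 : ℝ)| * (w0.1.2 : ℝ)
          ≤ (J * |(k w0.2.1.1 : ℝ)|) * (2 * S) := by gcongr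
        _ = (|(k w0.2.1.1 : ℝ)| * J) * (2 * S) := by ring
        _ ≤ W * (2 * S) := by
          gcongr
          exact hW _ ha1
    have hle : (F.filter (fun w => f w = f w0)).card ≤
        (m.natAbs.divisors ×ˢ m.natAbs.divisors).card := by
      refine Finset.card_le_card_of_injOn (fun w => (w.1.1, w.2.2.2)) ?_ ?_
      · intro w hw
        simp only [hF, hf, Finset.coe_filter, Finset.mem_filter, Finset.mem_product,
          Finset.mem_Ico, Finset.mem_Icc, Set.mem_ofPred_eq, Prod.mk.injEq] at hw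
        obtain ⟨⟨-, heq⟩, e1, e2⟩ := hw
        rw [e1, e2, ← hm] at heq
        simp only [Finset.coe_product, Set.mem_prod, Finset.mem_coe, Nat.mem_divisors]
        have hne : m.natAbs ≠ 0 := Int.natAbs_ne_zero.2 hm0
        refine ⟨⟨?_, hne⟩, ?_, hne⟩
        · rw [← Int.natCast_dvd, heq]
          exact Dvd.intro_left _ rfl
        · rw [← Int.natCast_dvd, heq, mul_assoc]
          exact Dvd.intro _ rfl
      · intro w hw w' hw' hww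
        simp only [hF, hf, Finset.coe_filter, Finset.mem_filter, Finset.mem_product,
          Finset.mem_Ico, Finset.mem_Icc, Set.mem_ofPred_eq, Prod.mk.injEq] at hw hw' hww
        obtain ⟨⟨⟨⟨⟨hs1, -⟩, -⟩, -, ha2, hj2, -⟩, heq⟩, e1, e2⟩ := hw
        obtain ⟨⟨⟨⟨⟨hs1', -⟩, -⟩, -, ha2', hj2', -⟩, heq'⟩, e1', e2'⟩ := hw'
        obtain ⟨f1, f2⟩ := hww
        rw [e1, e2, ← hm] at heq
        rw [e1', e2', ← hm, ← f1, ← f2] at heq'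
        have h1 : k w.2.2.1 = k w'.2.2.1 := by
          have h2 : ((w.2.2.2 : ℤ) * w.1.1) * k w.2.2.1 = ((w.2.2.2 : ℤ) * w.1.1) * k w'.2.2.1 := by
            linear_combination heq' - heq
          refine mul_left_cancel₀ (mul_ne_zero ?_ ?_) h2
          · exact_mod_cast (by omega : w.2.2.2 ≠ 0)
          · exact_mod_cast (by omega : w.1.1 ≠ 0)
        have h3 : w.2.2.1 = w'.2.2.1 := hinj ha2 ha2' h1
        refine Prod.ext (Prod.ext f1 (e1.trans e1'.symm)) (Prod.ext (e2.trans e2'.symm)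
          (Prod.ext h3 f2))
    have h4 : ((F.filter (fun w => f w = f w0)).card : ℝ) ≤
        (m.natAbs.divisors.card : ℝ) * (m.natAbs.divisors.card : ℝ) := by
      rw [Finset.card_product] at hle
      exact_mod_cast hle
    calc ((F.filter (fun w => f w = f w0)).card : ℝ)
        ≤ (m.natAbs.divisors.card : ℝ) * (m.natAbs.divisors.card : ℝ) := h4
      _ ≤ E * E := by gcongr
      _ = E ^ 2 := by ring
  have hcard : (F.card : ℝ) = ∑ b ∈ F.image f, ((F.filter (fun w => f w = b)).card : ℝ) := by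
    rw [Finset.card_eq_sum_card_image f F]
    push_cast
    rfl
  have himg : ((F.image f).card : ℝ) ≤ S * ((A.card : ℝ) * J) := by
    have h1 : F.image f ⊆ Ico S (2 * S) ×ˢ (A ×ˢ Icc 1 J) := by
      intro b hb
      rw [Finset.mem_image] at hb
      obtain ⟨w, hw, rfl⟩ := hb
      simp only [hF, Finset.mem_filter, Finset.mem_product] at hw
      simp only [hf, Finset.mem_product]
      exact ⟨hw.1.1.2, hw.1.2.1⟩
    have h2 := Finset.card_le_card h1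
    rw [Finset.card_product, Finset.card_product, Nat.card_Ico, Nat.card_Icc] at h2
    have h3 : 2 * S - S = S := by omega
    have h4 : J + 1 - 1 = J := by omega
    rw [h3, h4] at h2
    exact_mod_cast h2
  rw [hcard]
  calc ∑ b ∈ F.image f, ((F.filter (fun w => f w = b)).card : ℝ)
      ≤ ∑ _b ∈ F.image f, E ^ 2 := Finset.sum_le_sum hfib
    _ = ((F.image f).card : ℝ) * E ^ 2 := by rw [Finset.sum_const, nsmul_eq_mul]
    _ ≤ (S * ((A.card : ℝ) * J)) * E ^ 2 := by gcongr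
    _ = _ := by ring

/-- trilinear forms with Kloosterman fractions: several residues inside, the multipliers `j k_a` -/
theorem WA (ε : ℝ) (hε : 0 < ε) : ∃ C : ℝ, 0 < C ∧ ∀ (M S J : ℕ), 1 ≤ M → 1 ≤ S →
    ∀ V : ℝ, 1 ≤ V → ∀ (A : Finset ℕ) (ψ : ℕ → ℕ → ℝ → ℂ), (∀ a ∈ A, ∀ j, Wei M V (ψ a j)) →
    ∀ k : ℕ → ℤ, (∀ a ∈ A, k a ≠ 0) → Set.InjOn k A →
    (∀ a ∈ A, |(k a : ℝ)| * J ≤ V * (M : ℝ) ^ 2) →
    ∀ (γ : ℕ → ℕ → ℕ → ℂ) (β : ℕ → ℂ), (∀ a r s, ‖γ a r s‖ ≤ 1) → (∀ n, ‖β n‖ ≤ 1) →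
    (∀ a r s, γ a r s ≠ 0 → Squarefree (r * s) ∧ r * s ∈ Ioc M (2 * M + 1)) →
    ‖∑ a ∈ A, ∑ s ∈ Ico S (2 * S), ∑ r ∈ Icc 1 (2 * M + 1),
      ∑ n ∈ (Ioc M (2 * M + 1)).filter (fun n => Nat.Coprime (r * s) n),
        γ a r s * β n * FF (ψ a) (k a) J n (r * s)‖ ^ 2 ≤
      C * (V * M) ^ ε * V * ((M : ℝ) ^ 4 * ((A.card : ℝ) * J) / S +
        (M : ℝ) ^ (7 / 2 : ℝ) * ((A.card : ℝ) * J) ^ 2 * (S : ℝ) ^ (1 / 2 : ℝ)) := by
  classical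
  obtain ⟨ε1, hε1⟩ : ∃ ε1 : ℝ, ε1 = ε / 8 := ⟨_, rfl⟩
  have hε1p : 0 < ε1 := by rw [hε1]; positivity
  obtain ⟨C, hC, hWG⟩ := WG (2 * ε1) (by positivity)
  obtain ⟨C2, hC2, hτ⟩ := Pool.Agent.H510R2.divisor_bound ε1 hε1p
  have hCC : 0 < C * ((C2 * (6 : ℝ) ^ ε1) ^ 2 + 1) := by positivity
  refine ⟨C * ((C2 * (6 : ℝ) ^ ε1) ^ 2 + 1), hCC, ?_⟩
  intro M S J hM hS V hV A ψ hψ k hk0 hinj hkJ γ β hγ1 hβ hγ2
  have hM1 : (1 : ℝ) ≤ M := by exact_mod_cast hM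
  have hS1 : (1 : ℝ) ≤ S := by exact_mod_cast hS
  have hM0 : (0 : ℝ) < M := by linarith
  have hS0 : (0 : ℝ) < S := by linarith
  have hV0 : (0 : ℝ) < V := by linarith
  have hVM1 : 1 ≤ V * M := one_le_mul_of_one_le_of_one_le hV hM1
  have hVM0 : 0 < V * M := by linarith
  have hX0 : 0 ≤ (A.card : ℝ) * J := by positivity
  -- trivial case
  by_cases hSM : 2 * M + 1 < S
  · have h0 : ∀ a r s, s ∈ Ico S (2 * S) → r ∈ Icc 1 (2 * M + 1) → γ a r s = 0 := by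
      intro a r s hs hr
      by_contra h3
      have h4 := (Finset.mem_Ioc.1 (hγ2 a r s h3).2).2
      rw [Finset.mem_Ico] at hs
      rw [Finset.mem_Icc] at hr
      have : s ≤ r * s := Nat.le_mul_of_pos_left s hr.1
      omega
    have h1 : ∑ a ∈ A, ∑ s ∈ Ico S (2 * S), ∑ r ∈ Icc 1 (2 * M + 1),
      ∑ n ∈ (Ioc M (2 * M + 1)).filter (fun n => Nat.Coprime (r * s) n),
        γ a r s * β n * FF (ψ a) (k a) J n (r * s) = 0 := by
      refine Finset.sum_eq_zero fun a _ => Finset.sum_eq_zero fun s hs =>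
        Finset.sum_eq_zero fun r hr => Finset.sum_eq_zero fun n _ => ?_
      rw [h0 a r s hs hr, zero_mul, zero_mul]
    rw [h1, norm_zero, zero_pow two_ne_zero]
    refine mul_nonneg (mul_nonneg (mul_nonneg hCC.le ?_) hV0.le) (add_nonneg ?_ ?_)
    · exact Real.rpow_nonneg (mul_nonneg hV0.le hM0.le) _
    · exact div_nonneg (mul_nonneg (pow_nonneg hM0.le _) hX0) hS0.le
    · exact mul_nonneg (mul_nonneg (Real.rpow_nonneg hM0.le _) (sq_nonneg _))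
        (Real.rpow_nonneg hS0.le _)
  rw [not_lt] at hSM
  have hS3 : (S : ℝ) ≤ 3 * M := by
    have : (S : ℝ) ≤ 2 * M + 1 := by exact_mod_cast hSM
    linarith
  have hdiag := diag_count ε1 C2 hε1p hC2 hτ S J hS A k hk0 hinj (V * (M : ℝ) ^ 2) hkJ
  have key := hWG (ℕ × ℕ) M S hM hS V hV (A ×ˢ Icc 1 J) (fun i => ψ i.1 i.2)
    (fun i hi => hψ i.1 (Finset.mem_product.1 hi).1 i.2) (fun i => (i.2 : ℤ) * k i.1)
    (by
      intro i hi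
      rw [Finset.mem_product, Finset.mem_Icc] at hi
      refine le_trans ?_ (hkJ i.1 hi.1)
      push_cast
      rw [abs_mul, Nat.abs_cast, mul_comm]
      have : (i.2 : ℝ) ≤ J := by exact_mod_cast hi.2.2
      gcongr)
    (fun i => γ i.1) β (fun i => hγ1 i.1) hβ (fun i => hγ2 i.1) _ hdiag
  have heq : ∑ s ∈ Ico S (2 * S), ∑ r ∈ Icc 1 (2 * M + 1),
      ∑ n ∈ (Ioc M (2 * M + 1)).filter (fun n => Nat.Coprime (r * s) n),
        ∑ i ∈ A ×ˢ Icc 1 J, γ i.1 r s * β n *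
          (ψ i.1 i.2 (((r * s : ℕ) : ℝ) * n) * kf ((i.2 : ℤ) * k i.1) ((r * s : ℕ) : ℤ) n) =
      ∑ a ∈ A, ∑ s ∈ Ico S (2 * S), ∑ r ∈ Icc 1 (2 * M + 1),
      ∑ n ∈ (Ioc M (2 * M + 1)).filter (fun n => Nat.Coprime (r * s) n),
        γ a r s * β n * FF (ψ a) (k a) J n (r * s) := by
    symm
    rw [Finset.sum_comm (s := A)]
    refine Finset.sum_congr rfl fun s _ => ?_
    rw [Finset.sum_comm (s := A)]
    refine Finset.sum_congr rfl fun r _ => ?_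
    rw [Finset.sum_comm (s := A)]
    refine Finset.sum_congr rfl fun n _ => ?_
    rw [Finset.sum_product]
    refine Finset.sum_congr rfl fun a _ => ?_
    unfold FF
    rw [Finset.mul_sum]
  rw [heq] at key
  refine key.trans ?_
  have hcard : ((A ×ˢ Icc 1 J).card : ℝ) = (A.card : ℝ) * J := by
    rw [Finset.card_product, Nat.card_Icc]
    push_cast
    congr 1
  rw [hcard]
  obtain ⟨X, hX⟩ : ∃ X : ℝ, X = (A.card : ℝ) * J := ⟨_, rfl⟩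
  rw [← hX] at hX0 ⊢
  set P : ℝ := (V * M) ^ ε1 with hP
  have hP1 : 1 ≤ P := Real.one_le_rpow hVM1 hε1p.le
  have hP0 : 0 < P := by linarith
  have hpow : ∀ m : ℕ, ((V * M) ^ m) ^ ε1 = P ^ m := by
    intro m
    rw [hP, ← Real.rpow_natCast, ← Real.rpow_natCast, ← Real.rpow_mul hVM0.le,
      ← Real.rpow_mul hVM0.le, mul_comm ε1]
  have hPε : (V * M) ^ ε = P ^ 8 := by
    rw [hP, ← Real.rpow_natCast, ← Real.rpow_mul hVM0.le]
    congr 1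
    rw [hε1]
    push_cast; ring
  have hP2 : (V * M) ^ (2 * ε1) = P ^ 2 := by
    rw [hP, ← Real.rpow_natCast, ← Real.rpow_mul hVM0.le]
    congr 1
    push_cast; ring
  have hVV3 : V * (M : ℝ) ^ 3 ≤ (V * M) ^ 3 := by
    have h1 : (V * M) ^ 3 = V ^ 3 * (M : ℝ) ^ 3 := by ring
    rw [h1]
    exact mul_le_mul_of_nonneg_right (le_self_pow₀ hV (by norm_num)) (by positivity)
  have hu2 : (V * (M : ℝ) ^ 2 * (2 * S)) ^ ε1 ≤ (6 : ℝ) ^ ε1 * P ^ 3 := by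
    rw [← hpow 3, ← Real.mul_rpow (by norm_num) (by positivity)]
    refine Real.rpow_le_rpow (by positivity) ?_ hε1p.le
    calc V * (M : ℝ) ^ 2 * (2 * S) ≤ (V * (M : ℝ) ^ 2) * (2 * (3 * M)) := by gcongr
      _ = 6 * (V * (M : ℝ) ^ 3) := by ring
      _ ≤ 6 * (V * M) ^ 3 := by gcongr
  obtain ⟨G2, hG2⟩ : ∃ x : ℝ, x = C2 * (6 : ℝ) ^ ε1 := ⟨_, rfl⟩
  have hG20 : 0 < G2 := by rw [hG2]; positivity
  rw [← hG2, hPε, hP2]
  have b3 : C2 * (V * (M : ℝ) ^ 2 * (2 * S)) ^ ε1 ≤ G2 * P ^ 3 := by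
    calc C2 * (V * (M : ℝ) ^ 2 * (2 * S)) ^ ε1 ≤ C2 * ((6 : ℝ) ^ ε1 * P ^ 3) := by gcongr
      _ = _ := by rw [hG2]; ring
  have b4 : (C2 * (V * (M : ℝ) ^ 2 * (2 * S)) ^ ε1) ^ 2 * (S * X) ≤ (G2 ^ 2 * P ^ 6) * (S * X) := by
    have h1 : (C2 * (V * (M : ℝ) ^ 2 * (2 * S)) ^ ε1) ^ 2 ≤ (G2 * P ^ 3) ^ 2 := by
      gcongr
    calc _ ≤ (G2 * P ^ 3) ^ 2 * (S * X) := by gcongr
      _ = _ := by ring
  have hM7 : 0 ≤ (M : ℝ) ^ (7 / 2 : ℝ) := Real.rpow_nonneg hM0.le _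
  have hS7 : 0 ≤ (S : ℝ) ^ (1 / 2 : ℝ) := Real.rpow_nonneg hS0.le _
  obtain ⟨Y, hY⟩ : ∃ Y : ℝ, Y = (M : ℝ) ^ (7 / 2 : ℝ) * X ^ 2 * (S : ℝ) ^ (1 / 2 : ℝ) := ⟨_, rfl⟩
  have hY0 : 0 ≤ Y := by rw [hY]; exact mul_nonneg (mul_nonneg hM7 (sq_nonneg _)) hS7
  rw [← hY]
  have hP6 : 1 ≤ P ^ 6 := one_le_pow₀ hP1
  calc C * P ^ 2 * V * ((M : ℝ) ^ 4 * ((C2 * (V * (M : ℝ) ^ 2 * (2 * S)) ^ ε1) ^ 2 * (S * X)) /
        (S : ℝ) ^ 2 + Y)
      ≤ C * P ^ 2 * V * ((M : ℝ) ^ 4 * ((G2 ^ 2 * P ^ 6) * (S * X)) / (S : ℝ) ^ 2 + P ^ 6 * Y) := by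
        have : Y ≤ P ^ 6 * Y := le_mul_of_one_le_left hY0 hP6
        gcongr
    _ = C * P ^ 8 * V * (G2 ^ 2 * ((M : ℝ) ^ 4 * X / S) + Y) := by
        field_simp
    _ ≤ C * (G2 ^ 2 + 1) * P ^ 8 * V * ((M : ℝ) ^ 4 * X / S + Y) := by
        have d1 : 0 ≤ (M : ℝ) ^ 4 * X / S := by positivity
        have d2 : 0 ≤ C * P ^ 8 * V := by positivity
        have d3 : G2 ^ 2 * ((M : ℝ) ^ 4 * X / S) + Y ≤
            (G2 ^ 2 + 1) * ((M : ℝ) ^ 4 * X / S + Y) := by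
          have : 0 ≤ G2 ^ 2 * Y := by positivity
          nlinarith
        calc C * P ^ 8 * V * (G2 ^ 2 * ((M : ℝ) ^ 4 * X / S) + Y)
            ≤ C * P ^ 8 * V * ((G2 ^ 2 + 1) * ((M : ℝ) ^ 4 * X / S + Y)) :=
              mul_le_mul_of_nonneg_left d3 d2
          _ = _ := by ring

end Pool.Agent.H82.LD
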